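import Pool.Agent.Q87.RA.Conv
import Pool.Agent.Q89.MS.A15

/-! The maximal inequality on arbitrary balls, and the `L^2` formulation. -/

set_option autoImplicit false

namespace Q87.RA

open MeasureTheory ProbabilityTheory Filter Set Topology Metric
open scoped ENNReal NNReal RealInnerProductSpace FourierTransform Pointwise
open Pool.Agent.Q261.ST (wt ph)

variable {V : Type*} [NormedAddCommGroup V] [InnerProductSpace ℝ V] [FiniteDimensional ℝ V]
  [MeasurableSpace V] [BorelSpace V]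

/-- the maximal partial integral -/
noncomputable def mf (g : V → ℂ) (x : V) : ℝ≥0∞ := ⨆ R : ℝ, ‖pc g 0 R x‖ₑ

lemma mf_meas {g : V → ℂ} (hg : MemLp g 2 volume) : Measurable (mf g) := by
  apply LowerSemicontinuous.measurable
  apply lowerSemicontinuous_iSup
  intro R
  exact (pc_cont hg 0 R).enorm.lowerSemicontinuous

lemma Radii.scale {r : ℕ → ℝ} {L ρ : ℝ} (h : Radii r L) (hρ : 0 < ρ) :
    Radii (fun k => ρ * r k) (ρ * L) where
  zero := by rw [h.zero, mul_zero]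
  mono := fun i j hij => mul_le_mul_of_nonneg_left (h.mono hij) hρ.le
  top := h.top.const_mul_atTop hρ
  gap := fun k => by
    rw [← mul_sub]
    exact mul_le_mul_of_nonneg_left (h.gap k) hρ.le

lemma rnd_scale {r : ℕ → ℝ} {L ρ : ℝ} (h : Radii r L) (hρ : 0 < ρ) (c : ℕ → ℂ) (g : V → ℂ)
    (η : V) : rnd r c g (ρ⁻¹ • η) = rnd (fun k => ρ * r k) c (fun ξ => g (ρ⁻¹ • ξ)) η := by
  obtain ⟨k, h1, h2⟩ := h.exists_idx (norm_nonneg (ρ⁻¹ • η))
  rw [rnd_eq h c g ⟨h1, h2⟩]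
  have hn : ‖ρ⁻¹ • η‖ = ρ⁻¹ * ‖η‖ := by
    rw [norm_smul, Real.norm_of_nonneg (inv_pos.2 hρ).le]
  rw [hn] at h1 h2
  rw [rnd_eq (h.scale hρ) c _ (k := k)]
  constructor
  · rw [inv_mul_eq_div, le_div_iff₀ hρ] at h1
    linarith
  · rw [inv_mul_eq_div, div_lt_iff₀ hρ] at h2
    linarith

lemma rnd_mul {r : ℕ → ℝ} {L : ℝ} (h : Radii r L) (c : ℕ → ℂ) (g φ : V → ℂ)
    (η : V) : φ η * rnd r c g η = rnd r c (fun ξ => φ ξ * g ξ) η := by
  obtain ⟨k, h1, h2⟩ := h.exists_idx (norm_nonneg η)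
  rw [rnd_eq h c g ⟨h1, h2⟩, rnd_eq h c _ ⟨h1, h2⟩]
  ring

lemma An_smul (R ρ : ℝ) (hρ : 0 < ρ) : ρ • An V 0 R = An V 0 (ρ * R) := by
  ext η
  rw [mem_smul_set_iff_inv_smul_mem₀ hρ.ne']
  simp only [An, mem_ofPred_eq, norm_nonneg, true_and]
  rw [norm_smul, Real.norm_of_nonneg (inv_pos.2 hρ).le, inv_mul_eq_div, div_lt_iff₀ hρ, mul_comm R]

lemma pc_scale (g : V → ℂ) (R ρ : ℝ) (hρ : 0 < ρ) (y : V) :
    pc g 0 R (ρ • y) = ((ρ ^ Module.finrank ℝ V)⁻¹ : ℝ) • pc (fun ξ => g (ρ⁻¹ • ξ)) 0 (ρ * R) y := by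
  unfold pc
  have h1 := Measure.setIntegral_comp_smul_of_pos (volume : Measure V)
    (fun η => ph 0 y η * g (ρ⁻¹ • η)) (An V 0 R) hρ
  rw [An_smul R ρ hρ] at h1
  rw [← h1]
  refine setIntegral_congr_fun (An_meas _ _) fun ξ _ => ?_
  beta_reduce
  rw [smul_smul, inv_mul_cancel₀ hρ.ne', one_smul]
  congr 1
  unfold ph
  rw [inner_smul_left, inner_smul_right]
  simp

lemma pc_translate (g : V → ℂ) (R : ℝ) (y z : V) :
    pc g 0 R (y + z) = pc (fun ξ => ph 0 y ξ * g ξ) 0 R z := by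
  unfold pc
  refine setIntegral_congr_fun (An_meas _ _) fun ξ _ => ?_
  beta_reduce
  rw [← mul_assoc]
  congr 1
  unfold ph
  rw [← Complex.exp_add, inner_add_left]
  congr 1
  push_cast
  ring

lemma memLp_phase {g : V → ℂ} (hg : MemLp g 2 volume) (y : V) :
    MemLp (fun ξ => ph 0 y ξ * g ξ) 2 volume := by
  refine hg.of_le ?_ (Eventually.of_forall fun ξ => ?_)
  · have h1 : AEStronglyMeasurable (fun ξ : V => ph 0 y ξ) volume := by
      apply Continuous.aestronglyMeasurable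
      unfold ph
      fun_prop
    exact h1.mul hg.aestronglyMeasurable
  · rw [norm_mul, Pool.Agent.Q261.ST.norm_ph, one_mul]

variable {Ω : Type*} [MeasurableSpace Ω]

/-- the maximal inequality on the unit ball around an arbitrary point -/
theorem unit_ball [Nontrivial V] (P : Measure Ω) [IsProbabilityMeasure P] (X : ℕ → Ω → ℂ)
    (hX : Noise P X) {r : ℕ → ℝ} (m : ℕ) (h : Radii r (2 ^ m)) {g : V → ℂ}
    (hg : MemLp g 2 volume) (y : V) :
    ∫⁻ ω, (∫⁻ x in closedBall y 1, mf (rnd r (fun k => X k ω) g) x ^ 2) ∂P ≤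
      ENNReal.ofReal (Real.exp Real.pi * (10 * C1 V * (m + 4) ^ 2)) * ∫⁻ ξ, ‖g ξ‖ₑ ^ 2 := by
  set g' : V → ℂ := fun ξ => ph 0 y ξ * g ξ with hg'
  have hg2 : MemLp g' 2 volume := memLp_phase hg y
  have hn : ∫⁻ ξ, ‖g' ξ‖ₑ ^ 2 = ∫⁻ ξ, ‖g ξ‖ₑ ^ 2 := by
    refine lintegral_congr fun ξ => ?_
    rw [hg', enorm_mul, ← ofReal_norm (ph 0 y ξ), Pool.Agent.Q261.ST.norm_ph, ENNReal.ofReal_one,
      one_mul]
  have hw := weighted P X hX m h hg2
  rw [hn] at hw
  have hstep : ∀ ω, ∫⁻ x in closedBall y 1, mf (rnd r (fun k => X k ω) g) x ^ 2 ≤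
      ENNReal.ofReal (Real.exp Real.pi) * ∫⁻ x : V,
        (⨆ R : ℝ, ‖pc (rnd r (fun k => X k ω) g') 0 R x‖ₑ) ^ 2 * ENNReal.ofReal (wt x) := by
    intro ω
    have hc : ∀ k, ‖X k ω‖ ≤ 1 := fun k => hX.le k ω
    have hmm := mf_meas (rnd_memLp h _ hc hg2)
    have e1 : ∀ z : V, mf (rnd r (fun k => X k ω) g) (y + z) = mf (rnd r (fun k => X k ω) g') z := by
      intro z
      unfold mf
      congr 1
      funext R
      rw [pc_translate]
      congr 2
      funext ξ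
      exact rnd_mul h _ g (fun ξ => ph 0 y ξ) ξ
    have e2 : ∫⁻ x in closedBall y 1, mf (rnd r (fun k => X k ω) g) x ^ 2 =
        ∫⁻ z in closedBall (0 : V) 1, mf (rnd r (fun k => X k ω) g') z ^ 2 := by
      rw [← lintegral_indicator isClosed_closedBall.measurableSet,
        ← lintegral_indicator isClosed_closedBall.measurableSet,
        ← lintegral_add_left_eq_self _ y]
      refine lintegral_congr fun z => ?_
      by_cases hz : z ∈ closedBall (0 : V) 1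
      · have hz' : y + z ∈ closedBall y 1 := by
          rw [mem_closedBall, dist_eq_norm, add_sub_cancel_left]
          rwa [mem_closedBall_zero_iff] at hz
        rw [indicator_of_mem hz, indicator_of_mem hz', e1]
      · have hz' : y + z ∉ closedBall y 1 := by
          rw [mem_closedBall, dist_eq_norm, add_sub_cancel_left]
          rwa [mem_closedBall_zero_iff] at hz
        rw [indicator_of_notMem hz, indicator_of_notMem hz']
    rw [e2, ← lintegral_const_mul' _ _ ENNReal.ofReal_ne_top,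
      ← lintegral_indicator isClosed_closedBall.measurableSet]
    refine lintegral_mono fun z => ?_
    by_cases hz : z ∈ closedBall (0 : V) 1
    · rw [indicator_of_mem hz]
      have h6 : 1 ≤ ENNReal.ofReal (Real.exp Real.pi) * ENNReal.ofReal (wt z) := by
        rw [← ENNReal.ofReal_mul (Real.exp_pos _).le, ← ENNReal.ofReal_one]
        apply ENNReal.ofReal_le_ofReal
        unfold wt
        rw [← Real.exp_add, Real.one_le_exp_iff]
        rw [mem_closedBall_zero_iff] at hz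
        have hp := Real.pi_pos
        have h1 : ‖z‖ ^ 2 ≤ 1 := pow_le_one₀ (norm_nonneg _) hz
        nlinarith
      calc mf (rnd r (fun k => X k ω) g') z ^ 2 = 1 * mf (rnd r (fun k => X k ω) g') z ^ 2 :=
            (one_mul _).symm
        _ ≤ (ENNReal.ofReal (Real.exp Real.pi) * ENNReal.ofReal (wt z)) *
            mf (rnd r (fun k => X k ω) g') z ^ 2 := mul_le_mul' h6 le_rfl
        _ = _ := by
          unfold mf
          ring
    · rw [indicator_of_notMem hz]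
      exact zero_le
  calc ∫⁻ ω, (∫⁻ x in closedBall y 1, mf (rnd r (fun k => X k ω) g) x ^ 2) ∂P
      ≤ ∫⁻ ω, (ENNReal.ofReal (Real.exp Real.pi) * ∫⁻ x : V,
        (⨆ R : ℝ, ‖pc (rnd r (fun k => X k ω) g') 0 R x‖ₑ) ^ 2 * ENNReal.ofReal (wt x)) ∂P :=
        lintegral_mono hstep
    _ = ENNReal.ofReal (Real.exp Real.pi) * ∫⁻ ω, (∫⁻ x : V,
        (⨆ R : ℝ, ‖pc (rnd r (fun k => X k ω) g') 0 R x‖ₑ) ^ 2 * ENNReal.ofReal (wt x)) ∂P :=
        lintegral_const_mul' _ _ ENNReal.ofReal_ne_top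
    _ ≤ ENNReal.ofReal (Real.exp Real.pi) * (ENNReal.ofReal (10 * C1 V * (m + 4) ^ 2) *
        ∫⁻ ξ, ‖g ξ‖ₑ ^ 2) := mul_le_mul' le_rfl hw
    _ = _ := by
        rw [← mul_assoc, ← ENNReal.ofReal_mul (Real.exp_pos _).le]

/-- the maximal inequality on balls -/
theorem any_ball [Nontrivial V] (P : Measure Ω) [IsProbabilityMeasure P] (X : ℕ → Ω → ℂ)
    (hX : Noise P X) {r : ℕ → ℝ} {L : ℝ} (h : Radii r L) {g : V → ℂ} (hgm : StronglyMeasurable g)
    (hg : MemLp g 2 volume) (x₀ : V) (ρ : ℝ) (hρ : 0 < ρ) (m : ℕ) (hm : ρ * L ≤ 2 ^ m) :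
    ∫⁻ ω, (∫⁻ x in closedBall x₀ ρ, mf (rnd r (fun k => X k ω) g) x ^ 2) ∂P ≤
      ENNReal.ofReal (Real.exp Real.pi * (10 * C1 V * (m + 4) ^ 2)) * ∫⁻ ξ, ‖g ξ‖ₑ ^ 2 := by
  have hG : ∫⁻ ξ, ‖g ξ‖ₑ ^ 2 ≠ ⊤ := by
    have h3 := hg.eLpNorm_lt_top
    rw [eLpNorm_lt_top_iff_lintegral_rpow_enorm_lt_top (by norm_num) (by norm_num)] at h3
    simpa using h3.ne
  set d := Module.finrank ℝ V with hd
  set h' : V → ℂ := fun ξ => g (ρ⁻¹ • ξ) with hh'
  have hL' : MemLp h' 2 volume := Q89.MS.memLp_smul g hgm hG ρ hρ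
  have hr : Radii (fun k => ρ * r k) (2 ^ m) := by
    have := h.scale hρ
    exact ⟨this.zero, this.mono, this.top, fun k => (this.gap k).trans hm⟩
  have hu := unit_ball P X hX m hr hL' (ρ⁻¹ • x₀)
  rw [Q89.MS.sq_smul g hgm ρ hρ, ← hd] at hu
  have hpd : (0 : ℝ) < ρ ^ d := by positivity
  have hstep : ∀ ω, ∫⁻ x in closedBall x₀ ρ, mf (rnd r (fun k => X k ω) g) x ^ 2 ≤
      ENNReal.ofReal ((ρ ^ d)⁻¹) *
        ∫⁻ x in closedBall (ρ⁻¹ • x₀) 1, mf (rnd (fun k => ρ * r k) (fun k => X k ω) h') x ^ 2 := by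
    intro ω
    have hc : ∀ k, ‖X k ω‖ ≤ 1 := fun k => hX.le k ω
    have hmm := mf_meas (rnd_memLp hr _ hc hL')
    have e1 : ∀ x : V, mf (rnd r (fun k => X k ω) g) x ≤
        ENNReal.ofReal ((ρ ^ d)⁻¹) *
          mf (rnd (fun k => ρ * r k) (fun k => X k ω) h') (ρ⁻¹ • x) := by
      intro x
      unfold mf
      refine iSup_le fun R => ?_
      have h1 := pc_scale (rnd r (fun k => X k ω) g) R ρ hρ (ρ⁻¹ • x)
      rw [smul_smul, mul_inv_cancel₀ hρ.ne', one_smul] at h1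
      rw [h1, enorm_smul, Real.enorm_of_nonneg (by positivity)]
      refine mul_le_mul' le_rfl ?_
      have e3 : (fun ξ : V => rnd r (fun k => X k ω) g (ρ⁻¹ • ξ)) =
          rnd (fun k => ρ * r k) (fun k => X k ω) h' := by
        funext ξ
        exact rnd_scale h hρ _ g ξ
      rw [e3]
      exact le_iSup (fun R : ℝ => ‖pc (rnd (fun k => ρ * r k) (fun k => X k ω) h') 0 R
        (ρ⁻¹ • x)‖ₑ) (ρ * R)
    have hmF : Measurable fun x : V => mf (rnd (fun k => ρ * r k) (fun k => X k ω) h') x ^ 2 :=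
      hmm.pow_const 2
    calc ∫⁻ x in closedBall x₀ ρ, mf (rnd r (fun k => X k ω) g) x ^ 2
        ≤ ∫⁻ x in closedBall x₀ ρ, ENNReal.ofReal (((ρ ^ d)⁻¹) ^ 2) *
          mf (rnd (fun k => ρ * r k) (fun k => X k ω) h') (ρ⁻¹ • x) ^ 2 := by
          refine lintegral_mono fun x => ?_
          calc mf (rnd r (fun k => X k ω) g) x ^ 2 ≤ (ENNReal.ofReal ((ρ ^ d)⁻¹) *
                mf (rnd (fun k => ρ * r k) (fun k => X k ω) h') (ρ⁻¹ • x)) ^ 2 :=
                pow_le_pow_left₀ zero_le (e1 x) 2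
            _ = _ := by rw [mul_pow, ENNReal.ofReal_pow (by positivity)]
      _ = ENNReal.ofReal (((ρ ^ d)⁻¹) ^ 2) * (ENNReal.ofReal (ρ ^ d) *
          ∫⁻ x in closedBall (ρ⁻¹ • x₀) 1,
            mf (rnd (fun k => ρ * r k) (fun k => X k ω) h') x ^ 2) := by
          rw [lintegral_const_mul' _ _ ENNReal.ofReal_ne_top,
            Q89.MS.lint_ball_smul
              (fun x => mf (rnd (fun k => ρ * r k) (fun k => X k ω) h') x ^ 2) hmF ρ hρ x₀]
      _ = _ := by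
          rw [← mul_assoc, ← ENNReal.ofReal_mul (by positivity)]
          congr 2
          field_simp
  calc ∫⁻ ω, (∫⁻ x in closedBall x₀ ρ, mf (rnd r (fun k => X k ω) g) x ^ 2) ∂P
      ≤ ∫⁻ ω, (ENNReal.ofReal ((ρ ^ d)⁻¹) *
        ∫⁻ x in closedBall (ρ⁻¹ • x₀) 1,
          mf (rnd (fun k => ρ * r k) (fun k => X k ω) h') x ^ 2) ∂P := lintegral_mono hstep
    _ = ENNReal.ofReal ((ρ ^ d)⁻¹) * ∫⁻ ω, (
        ∫⁻ x in closedBall (ρ⁻¹ • x₀) 1,
          mf (rnd (fun k => ρ * r k) (fun k => X k ω) h') x ^ 2) ∂P :=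
        lintegral_const_mul' _ _ ENNReal.ofReal_ne_top
    _ ≤ ENNReal.ofReal ((ρ ^ d)⁻¹) * (ENNReal.ofReal (Real.exp Real.pi *
        (10 * C1 V * (m + 4) ^ 2)) * (ENNReal.ofReal (ρ ^ d) * ∫⁻ ξ, ‖g ξ‖ₑ ^ 2)) :=
        mul_le_mul' le_rfl hu
    _ = (ENNReal.ofReal ((ρ ^ d)⁻¹) * ENNReal.ofReal (ρ ^ d)) * (ENNReal.ofReal (Real.exp Real.pi *
        (10 * C1 V * (m + 4) ^ 2)) * ∫⁻ ξ, ‖g ξ‖ₑ ^ 2) := by ring
    _ = _ := by
        rw [← ENNReal.ofReal_mul (by positivity), inv_mul_cancel₀ hpd.ne', ENNReal.ofReal_one,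
          one_mul]

lemma exists_m (t : ℝ) (ht : 0 ≤ t) :
    ∃ m : ℕ, t ≤ 2 ^ m ∧ ((m : ℝ) + 4) ≤ 9 * Real.log (2 + t) := by
  have hl2 := Real.log_two_gt_d9
  have hlog : Real.log 2 ≤ Real.log (2 + t) := Real.log_le_log (by norm_num) (by linarith)
  have hl2p : 0 < Real.log 2 := by linarith
  refine ⟨⌈Real.log (2 + t) / Real.log 2⌉₊, ?_, ?_⟩
  · have h1 := Nat.le_ceil (Real.log (2 + t) / Real.log 2)
    rw [div_le_iff₀ hl2p, ← Real.log_pow, Real.log_le_log_iff (by linarith) (by positivity)] at h1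
    linarith
  · have h1 := Nat.ceil_lt_add_one (a := Real.log (2 + t) / Real.log 2) (by
      have : 0 ≤ Real.log (2 + t) := by linarith
      positivity)
    have h2 : Real.log (2 + t) / Real.log 2 ≤ 3 / 2 * Real.log (2 + t) := by
      rw [div_le_iff₀ hl2p]
      nlinarith
    nlinarith

end Q87.RA
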