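import Pool.Agent.Q261.ST.Main

/-! The local `L^2` estimate for a thin annulus. -/

set_option autoImplicit false

namespace Q87.RA

open MeasureTheory Filter Set Topology Metric
open scoped ENNReal NNReal RealInnerProductSpace
open Pool.Agent.Q261.ST (wt ph c W D schur nuhat)

variable {V : Type*} [NormedAddCommGroup V] [InnerProductSpace ℝ V] [FiniteDimensional ℝ V]
  [MeasurableSpace V] [BorelSpace V]

/-- the annulus -/
def An (V : Type*) [NormedAddCommGroup V] (a b : ℝ) : Set V := {η : V | a ≤ ‖η‖ ∧ ‖η‖ < b}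

omit [FiniteDimensional ℝ V] in
lemma An_meas (a b : ℝ) : MeasurableSet (An V a b) :=
  (measurableSet_le measurable_const measurable_norm).inter
    (measurableSet_lt measurable_norm measurable_const)

lemma pow_diff (n : ℕ) (a b : ℝ) (ha : 0 ≤ a) (hab : a ≤ b) (hb : b ≤ 2) :
    b ^ n - a ^ n ≤ n * 2 ^ n * (b - a) := by
  induction n with
  | zero => simp
  | succ n ih =>
    have h1 : b ^ (n + 1) - a ^ (n + 1) = b ^ n * (b - a) + a * (b ^ n - a ^ n) := by ring
    have h2 : b ^ n ≤ 2 ^ n := pow_le_pow_left₀ (ha.trans hab) hb n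
    have h3 : 0 ≤ b ^ n - a ^ n := sub_nonneg.2 (pow_le_pow_left₀ ha hab n)
    rw [h1]
    push_cast
    have h4 : b ^ n * (b - a) ≤ 2 ^ n * (b - a) :=
      mul_le_mul_of_nonneg_right h2 (sub_nonneg.2 hab)
    have h5 : a * (b ^ n - a ^ n) ≤ 2 * (n * 2 ^ n * (b - a)) :=
      mul_le_mul (hab.trans hb) ih h3 (by norm_num)
    have h6 : 0 ≤ 2 ^ n * (b - a) := by
      have := sub_nonneg.2 hab
      positivity
    rw [pow_succ]
    nlinarith

/-- the constant -/
noncomputable def C1 (V : Type*) [NormedAddCommGroup V] [InnerProductSpace ℝ V]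
    [FiniteDimensional ℝ V] [MeasurableSpace V] [BorelSpace V] : ℝ :=
  12 * Real.exp Real.pi * (D V).toReal +
    Module.finrank ℝ V * 2 ^ Module.finrank ℝ V * (volume (ball (0 : V) 1)).toReal + (D V).toReal

lemma C1_nonneg : 0 ≤ C1 V := by
  unfold C1
  positivity

omit [FiniteDimensional ℝ V] [MeasurableSpace V] [BorelSpace V] in
lemma wt_le_one (x : V) : ENNReal.ofReal (wt x) ≤ 1 := by
  rw [← ENNReal.ofReal_one]
  apply ENNReal.ofReal_le_ofReal
  unfold wt
  rw [Real.exp_le_one_iff]
  have := Real.pi_pos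
  have : 0 ≤ Real.pi * ‖x‖ ^ 2 := by positivity
  linarith

lemma wt_total (S : Set V) (ξ : V) : ∫⁻ η in S, ENNReal.ofReal (wt (ξ - η)) ≤ D V := by
  calc ∫⁻ η in S, ENNReal.ofReal (wt (ξ - η)) ≤ ∫⁻ η : V, ENNReal.ofReal (wt (ξ - η)) :=
        setLIntegral_le_lintegral _ _
    _ ≤ ∫⁻ η : V, W (ξ - η) := by
        refine lintegral_mono fun η => ?_
        unfold wt W
        apply ENNReal.ofReal_le_ofReal
        apply Real.exp_le_exp.2
        have := Real.pi_pos
        have : 0 ≤ Real.pi * ‖ξ - η‖ ^ 2 := by positivity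
        linarith
    _ = D V := lintegral_sub_left_eq_self (W : V → ℝ≥0∞) ξ

lemma D_eq : D V = ENNReal.ofReal (D V).toReal :=
  (ENNReal.ofReal_toReal (Pool.Agent.Q261.ST.D_lt_top).ne).symm

/-- the Gaussian measure of an annulus -/
theorem annulus_bound [Nontrivial V] (a b : ℝ) (ha : 0 ≤ a) (hab : a ≤ b) (ξ : V) :
    ∫⁻ η in An V a b, ENNReal.ofReal (wt (ξ - η)) ≤ ENNReal.ofReal (C1 V * min 1 (b - a)) := by
  have hD0 : 0 ≤ (D V).toReal := ENNReal.toReal_nonneg
  have hV0 : 0 ≤ (volume (ball (0 : V) 1)).toReal := ENNReal.toReal_nonneg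
  have hE0 := Real.exp_pos Real.pi
  have hba : 0 ≤ b - a := sub_nonneg.2 hab
  have t1 : 0 ≤ 12 * Real.exp Real.pi * (D V).toReal := by positivity
  have t2 : 0 ≤ (Module.finrank ℝ V : ℝ) * 2 ^ Module.finrank ℝ V *
    (volume (ball (0 : V) 1)).toReal := by positivity
  by_cases h1 : 1 ≤ b - a
  · rw [min_eq_left h1, mul_one]
    refine (wt_total _ ξ).trans ?_
    rw [D_eq]
    apply ENNReal.ofReal_le_ofReal
    unfold C1
    linarith
  · push Not at h1
    rw [min_eq_right h1.le]
    by_cases h2 : 1 ≤ a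
    · have hb : 1 ≤ b := h2.trans hab
      have h3 := Pool.Agent.Q261.ST.shell (V := V) (a ^ 2) (b ^ 2) b (1 / b) (by positivity)
        (pow_le_pow_left₀ ha hab 2) (by linarith) le_rfl (by positivity)
        (by rw [div_le_one (by linarith)]; exact hb) (by field_simp; rfl) ξ
      have e : {η : V | a ^ 2 ≤ ‖η‖ ^ 2 ∧ ‖η‖ ^ 2 < b ^ 2} = An V a b := by
        ext η
        simp only [An, mem_ofPred_eq]
        rw [sq_le_sq₀ ha (norm_nonneg _), sq_lt_sq₀ (norm_nonneg _) (by linarith)]
      rw [e] at h3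
      refine h3.trans ?_
      rw [D_eq, ← ENNReal.ofReal_mul (by
        have : 0 ≤ b ^ 2 - a ^ 2 := by nlinarith
        positivity)]
      apply ENNReal.ofReal_le_ofReal
      have h4 : 2 * (b ^ 2 - a ^ 2) / a ^ 2 / (1 / b) ≤ 12 * (b - a) := by
        rw [div_div, div_le_iff₀ (by positivity)]
        have e2 : a ^ 2 * (1 / b) = a ^ 2 / b := by ring
        rw [e2, mul_div_assoc', le_div_iff₀ (by linarith)]
        have h5 : b ≤ 2 * a := by linarith
        have h6 : (b + a) * b ≤ 6 * a ^ 2 := by nlinarith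
        nlinarith [mul_le_mul_of_nonneg_right h6 hba]
      calc Real.exp Real.pi * (2 * (b ^ 2 - a ^ 2) / a ^ 2) / (1 / b) * (D V).toReal
          = Real.exp Real.pi * (2 * (b ^ 2 - a ^ 2) / a ^ 2 / (1 / b)) * (D V).toReal := by ring
        _ ≤ Real.exp Real.pi * (12 * (b - a)) * (D V).toReal := by gcongr
        _ = (12 * Real.exp Real.pi * (D V).toReal) * (b - a) := by ring
        _ ≤ C1 V * (b - a) := by
          refine mul_le_mul_of_nonneg_right ?_ hba
          unfold C1
          linarith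
    · push Not at h2
      have hb2 : b ≤ 2 := by linarith
      have h3 : ∫⁻ η in An V a b, ENNReal.ofReal (wt (ξ - η)) ≤ volume (An V a b) := by
        calc _ ≤ ∫⁻ _ in An V a b, 1 := lintegral_mono fun η => wt_le_one _
          _ = _ := by rw [setLIntegral_one]
      have h4 : volume (An V a b) ≤ volume (ball (0 : V) b) - volume (ball (0 : V) a) := by
        have hsub : ball (0 : V) a ⊆ ball (0 : V) b := ball_subset_ball hab
        rw [← measure_sdiff hsub measurableSet_ball.nullMeasurableSet measure_ball_lt_top.ne]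
        apply measure_mono
        intro η hη
        rw [Set.mem_sdiff, mem_ball_zero_iff, mem_ball_zero_iff, not_lt]
        exact ⟨hη.2, hη.1⟩
      refine h3.trans (h4.trans ?_)
      rw [Measure.addHaar_ball volume (0 : V) ha, Measure.addHaar_ball volume (0 : V) (ha.trans hab)]
      have hv : volume (ball (0 : V) 1) = ENNReal.ofReal (volume (ball (0 : V) 1)).toReal :=
        (ENNReal.ofReal_toReal measure_ball_lt_top.ne).symm
      have hb0 : 0 ≤ b := ha.trans hab
      rw [hv, ← ENNReal.ofReal_mul (by positivity), ← ENNReal.ofReal_mul (by positivity),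
        ← ENNReal.ofReal_sub _ (by positivity)]
      apply ENNReal.ofReal_le_ofReal
      have h5 := pow_diff (Module.finrank ℝ V) a b ha hab hb2
      calc b ^ Module.finrank ℝ V * (volume (ball (0 : V) 1)).toReal -
            a ^ Module.finrank ℝ V * (volume (ball (0 : V) 1)).toReal
          = (b ^ Module.finrank ℝ V - a ^ Module.finrank ℝ V) *
            (volume (ball (0 : V) 1)).toReal := by ring
        _ ≤ (Module.finrank ℝ V * 2 ^ Module.finrank ℝ V * (b - a)) *
            (volume (ball (0 : V) 1)).toReal := by gcongr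
        _ = (Module.finrank ℝ V * 2 ^ Module.finrank ℝ V *
            (volume (ball (0 : V) 1)).toReal) * (b - a) := by ring
        _ ≤ C1 V * (b - a) := by
          refine mul_le_mul_of_nonneg_right ?_ hba
          unfold C1
          linarith

/-- the oscillatory integral over an annulus -/
noncomputable def pc (g : V → ℂ) (a b : ℝ) (x : V) : ℂ := ∫ ξ in An V a b, ph 0 x ξ * g ξ

lemma ker_dirac (q : V × V) : Pool.Agent.Q261.ST.ker (Measure.dirac 0) q = ENNReal.ofReal (wt (q.1 - q.2)) := by
  unfold Pool.Agent.Q261.ST.ker nuhat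
  rw [integral_dirac]
  simp

lemma An_finite (a b : ℝ) : volume (An V a b) < ⊤ := by
  apply Bornology.IsBounded.measure_lt_top
  apply (Metric.isBounded_closedBall (x := (0 : V)) (r := b)).subset
  intro η hη
  rw [mem_closedBall_zero_iff]
  exact hη.2.le

lemma int_An {g : V → ℂ} (hg : MemLp g 2 volume) (a b : ℝ) : IntegrableOn g (An V a b) := by
  have : IsFiniteMeasure (volume.restrict (An V a b)) := ⟨by
    rw [Measure.restrict_apply_univ]
    exact An_finite a b⟩
  exact (hg.restrict (An V a b)).integrable one_le_two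

/-- the local `L^2` estimate for an annulus -/
theorem piece [Nontrivial V] {g : V → ℂ} (hg : MemLp g 2 volume) (a b : ℝ) (ha : 0 ≤ a)
    (hab : a ≤ b) :
    ∫⁻ x : V, ‖pc g a b x‖ₑ ^ 2 * ENNReal.ofReal (wt x) ≤
      ENNReal.ofReal (C1 V * min 1 (b - a)) * ∫⁻ ξ in An V a b, ‖g ξ‖ₑ ^ 2 := by
  have h1 := schur (volume.restrict (An V a b)) (Measure.dirac (0 : ℝ)) g (int_An hg a b)
    (ENNReal.ofReal (C1 V * min 1 (b - a))) univ (by simp) (by
      intro ξ _
      simp_rw [ker_dirac]
      exact annulus_bound a b ha hab ξ)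
  refine le_trans (le_of_eq ?_) h1
  have hm : Measurable (fun p : ℝ × V => ‖c (volume.restrict (An V a b)) g p.1 p.2‖ₑ ^ 2 *
      ENNReal.ofReal (wt p.2)) :=
    ((Pool.Agent.Q261.ST.continuous_c _ _ (int_An hg a b)).measurable.enorm.pow_const 2).mul
      (Pool.Agent.Q261.ST.continuous_wt.comp continuous_snd).measurable.ennreal_ofReal
  rw [Measure.dirac_prod, lintegral_map hm measurable_prodMk_left]
  rfl

end Q87.RA
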