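import Pool.Agent.Q87.RA.Ann

/-! Dyadic chaining inside an annulus. -/

set_option autoImplicit false

namespace Q87.RA

open MeasureTheory Filter Set Topology Metric
open scoped ENNReal NNReal RealInnerProductSpace
open Pool.Agent.Q261.ST (wt ph)

variable {V : Type*} [NormedAddCommGroup V] [InnerProductSpace ℝ V] [FiniteDimensional ℝ V]
  [MeasurableSpace V] [BorelSpace V]

lemma int_ph {g : V → ℂ} {S : Set V} (hg : IntegrableOn g S) (x : V) :
    IntegrableOn (fun ξ => ph 0 x ξ * g ξ) S := by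
  have h := hg.bdd_mul (c := 1) (f := fun ξ => ph 0 x ξ) (by
    apply Continuous.aestronglyMeasurable
    unfold ph
    fun_prop) (Eventually.of_forall fun ξ => by rw [Pool.Agent.Q261.ST.norm_ph])
  exact h

lemma pc_add {g : V → ℂ} (hg : MemLp g 2 volume) (x : V) {a b c : ℝ} (hab : a ≤ b) (hbc : b ≤ c) :
    pc g a c x = pc g a b x + pc g b c x := by
  unfold pc
  have h1 : An V a c = An V a b ∪ An V b c := by
    ext η
    simp only [An, mem_ofPred_eq, mem_union]
    constructor
    · rintro ⟨h1, h2⟩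
      rcases lt_or_ge ‖η‖ b with h | h
      · exact Or.inl ⟨h1, h⟩
      · exact Or.inr ⟨h, h2⟩
    · rintro (⟨h1, h2⟩ | ⟨h1, h2⟩)
      · exact ⟨h1, h2.trans_le hbc⟩
      · exact ⟨hab.trans h1, h2⟩
  rw [h1, setIntegral_union _ (An_meas b c) (int_ph (int_An hg a b) x) (int_ph (int_An hg b c) x)]
  rw [disjoint_left]
  intro η h2 h3
  linarith [h2.2, h3.1]

lemma pc_self (g : V → ℂ) (x : V) {a b : ℝ} (hab : b ≤ a) : pc g a b x = 0 := by
  unfold pc
  have : An V a b = ∅ := by
    ext η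
    simp only [An, mem_ofPred_eq, mem_empty_iff_false, iff_false, not_and, not_lt]
    intro h
    exact hab.trans h
  rw [this]
  simp

/-- the dyadic points -/
noncomputable def A (a b : ℝ) (j i : ℕ) : ℝ := a + (b - a) * (i / 2 ^ j)

lemma A_zero (a b : ℝ) (j : ℕ) : A a b j 0 = a := by simp [A]

lemma A_double (a b : ℝ) (j i : ℕ) : A a b (j + 1) (2 * i) = A a b j i := by
  unfold A
  push_cast
  rw [pow_succ]
  field_simp

lemma A_mono {a b : ℝ} (hab : a ≤ b) (j : ℕ) {i i' : ℕ} (h : i ≤ i') : A a b j i ≤ A a b j i' := by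
  unfold A
  have : 0 ≤ b - a := sub_nonneg.2 hab
  gcongr

lemma A_ge {a b : ℝ} (hab : a ≤ b) (j i : ℕ) : a ≤ A a b j i := by
  have := A_mono hab j (Nat.zero_le i)
  rwa [A_zero] at this

lemma A_top (a b : ℝ) (j : ℕ) : A a b j (2 ^ j) = b := by
  unfold A
  push_cast
  rw [div_self (by positivity)]
  ring

lemma A_le {a b : ℝ} (hab : a ≤ b) (j i : ℕ) (h : i ≤ 2 ^ j) : A a b j i ≤ b :=
  (A_mono hab j h).trans (A_top a b j).le

lemma A_step (a b : ℝ) (j i : ℕ) : A a b j (i + 1) - A a b j i = (b - a) / 2 ^ j := by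
  unfold A
  push_cast
  field_simp
  ring

/-- the square sum at the level `j` -/
noncomputable def Q2 (g : V → ℂ) (a b : ℝ) (j : ℕ) (x : V) : ℝ≥0∞ :=
  ∑ i ∈ Finset.range (2 ^ j), ‖pc g (A a b j i) (A a b j (i + 1)) x‖ₑ ^ 2

/-- its square root -/
noncomputable def Q (g : V → ℂ) (a b : ℝ) (j : ℕ) (x : V) : ℝ≥0∞ := Q2 g a b j x ^ (1 / 2 : ℝ)

lemma le_Q (g : V → ℂ) (a b : ℝ) (j i : ℕ) (hi : i < 2 ^ j) (x : V) :
    ‖pc g (A a b j i) (A a b j (i + 1)) x‖ₑ ≤ Q g a b j x := by
  unfold Q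
  have h1 : ‖pc g (A a b j i) (A a b j (i + 1)) x‖ₑ ^ 2 ≤ Q2 g a b j x :=
    Finset.single_le_sum (f := fun i => ‖pc g (A a b j i) (A a b j (i + 1)) x‖ₑ ^ 2)
      (fun _ _ => zero_le) (Finset.mem_range.2 hi)
  calc ‖pc g (A a b j i) (A a b j (i + 1)) x‖ₑ
      = (‖pc g (A a b j i) (A a b j (i + 1)) x‖ₑ ^ 2) ^ (1 / 2 : ℝ) := by
        rw [← ENNReal.rpow_natCast, ← ENNReal.rpow_mul]
        norm_num
    _ ≤ _ := ENNReal.rpow_le_rpow h1 (by norm_num)

lemma Q_sq (g : V → ℂ) (a b : ℝ) (j : ℕ) (x : V) : Q g a b j x ^ 2 = Q2 g a b j x := by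
  unfold Q
  rw [← ENNReal.rpow_natCast, ← ENNReal.rpow_mul]
  norm_num

/-- the majorant of an annulus -/
noncomputable def M (g : V → ℂ) (a b : ℝ) (x : V) : ℝ≥0∞ := ∑' j, Q g a b j x

/-- the index of `R` at the level `j` -/
noncomputable def idx (a b : ℝ) (j : ℕ) (R : ℝ) : ℕ := ⌊(R - a) / (b - a) * 2 ^ j⌋₊

lemma idx_succ (a b : ℝ) (j : ℕ) (R : ℝ) :
    idx a b (j + 1) R = 2 * idx a b j R ∨ idx a b (j + 1) R = 2 * idx a b j R + 1 := by
  unfold idx
  set y : ℝ := (R - a) / (b - a) * 2 ^ j with hy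
  have e : (R - a) / (b - a) * 2 ^ (j + 1) = 2 * y := by rw [hy, pow_succ]; ring
  rw [e]
  rcases le_or_gt 0 y with h0 | h0
  · have h1 := Nat.floor_le h0
    have h2 := Nat.lt_floor_add_one y
    have h3 : 2 * ⌊y⌋₊ ≤ ⌊2 * y⌋₊ := by
      apply Nat.le_floor
      push_cast
      linarith
    have h4 : ⌊2 * y⌋₊ < 2 * ⌊y⌋₊ + 2 := by
      rw [Nat.floor_lt (by linarith)]
      push_cast
      linarith
    omega
  · left
    rw [Nat.floor_of_nonpos h0.le, Nat.floor_of_nonpos (by linarith)]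

lemma idx_lt {a b : ℝ} {j : ℕ} {R : ℝ} (h1 : a ≤ R) (h2 : R < b) : idx a b j R < 2 ^ j := by
  unfold idx
  have hab : 0 < b - a := by linarith
  have h3 : 0 ≤ (R - a) / (b - a) := div_nonneg (by linarith) hab.le
  have h4 : (R - a) / (b - a) < 1 := by
    rw [div_lt_one hab]
    linarith
  rw [Nat.floor_lt (by positivity)]
  push_cast
  have : (0 : ℝ) < 2 ^ j := by positivity
  nlinarith

lemma A_idx_le {a b : ℝ} {j : ℕ} {R : ℝ} (h1 : a ≤ R) (h2 : R < b) :
    A a b j (idx a b j R) ≤ R := by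
  unfold A idx
  have hab : 0 < b - a := by linarith
  have h3 : 0 ≤ (R - a) / (b - a) := div_nonneg (by linarith) hab.le
  have h5 : (0 : ℝ) < 2 ^ j := by positivity
  have h4 := Nat.floor_le (a := (R - a) / (b - a) * 2 ^ j) (by positivity)
  have h6 : (⌊(R - a) / (b - a) * 2 ^ j⌋₊ : ℝ) / 2 ^ j ≤ (R - a) / (b - a) := by
    rw [div_le_iff₀ h5]
    exact h4
  calc a + (b - a) * ((⌊(R - a) / (b - a) * 2 ^ j⌋₊ : ℝ) / 2 ^ j)
      ≤ a + (b - a) * ((R - a) / (b - a)) := by gcongr
    _ = R := by field_simp; ring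

lemma A_idx_gt {a b : ℝ} {j : ℕ} {R : ℝ} (h1 : a ≤ R) (h2 : R < b) :
    R - (b - a) / 2 ^ j < A a b j (idx a b j R) := by
  unfold A idx
  have hab : 0 < b - a := by linarith
  have h5 : (0 : ℝ) < 2 ^ j := by positivity
  have h4 := Nat.lt_floor_add_one ((R - a) / (b - a) * 2 ^ j)
  have h6 : (R - a) / (b - a) - 1 / 2 ^ j < (⌊(R - a) / (b - a) * 2 ^ j⌋₊ : ℝ) / 2 ^ j := by
    rw [lt_div_iff₀ h5, sub_mul, div_mul_cancel₀ _ h5.ne']
    linarith
  calc R - (b - a) / 2 ^ j = a + (b - a) * ((R - a) / (b - a) - 1 / 2 ^ j) := by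
        field_simp
        ring
    _ < _ := by gcongr

lemma idx_zero {a b : ℝ} {R : ℝ} (h1 : a ≤ R) (h2 : R < b) : idx a b 0 R = 0 := by
  have := idx_lt (j := 0) h1 h2
  simpa using this

lemma chain_fin {g : V → ℂ} (hg : MemLp g 2 volume) {a b R : ℝ} (h1 : a ≤ R)
    (h2 : R < b) (x : V) (J : ℕ) :
    ‖pc g a (A a b J (idx a b J R)) x‖ₑ ≤ ∑ j ∈ Finset.range J, Q g a b (j + 1) x := by
  have hab : a ≤ b := by linarith
  induction J with
  | zero =>
    rw [idx_zero h1 h2, A_zero, pc_self g x le_rfl, enorm_zero]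
    exact zero_le
  | succ J ih =>
    rw [Finset.sum_range_succ]
    rcases idx_succ a b J R with h | h
    · rw [h, A_double]
      exact ih.trans le_self_add
    · rw [h]
      have e : pc g a (A a b (J + 1) (2 * idx a b J R + 1)) x =
          pc g a (A a b J (idx a b J R)) x +
          pc g (A a b (J + 1) (2 * idx a b J R)) (A a b (J + 1) (2 * idx a b J R + 1)) x := by
        rw [← A_double a b J (idx a b J R)]
        exact pc_add hg x (A_ge hab _ _) (A_mono hab _ (Nat.le_succ _))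
      rw [e]
      refine (enorm_add_le _ _).trans (add_le_add ih ?_)
      apply le_Q
      have h4 := idx_lt (j := J) h1 h2
      rw [pow_succ]
      omega

lemma A_idx_tendsto {a b R : ℝ} (h1 : a ≤ R) (h2 : R < b) :
    Tendsto (fun J => A a b J (idx a b J R)) atTop (𝓝 R) := by
  apply tendsto_of_tendsto_of_tendsto_of_le_of_le (g := fun J : ℕ => R - (b - a) / 2 ^ J)
    (h := fun _ => R)
  · have h3 : Tendsto (fun J : ℕ => (b - a) * (1 / 2) ^ J) atTop (𝓝 ((b - a) * 0)) :=
      (tendsto_pow_atTop_nhds_zero_of_lt_one (by norm_num) (by norm_num)).const_mul _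
    have h4 := h3.const_sub R
    rw [mul_zero, sub_zero] at h4
    refine h4.congr fun J => ?_
    rw [one_div, inv_pow, ← div_eq_mul_inv]
  · exact tendsto_const_nhds
  · intro J
    exact (A_idx_gt h1 h2).le
  · intro J
    exact A_idx_le h1 h2

lemma pc_left {g : V → ℂ} (hg : MemLp g 2 volume) (x : V) (a R : ℝ) (u : ℕ → ℝ)
    (hu : Tendsto u atTop (𝓝 R)) (hul : ∀ n, u n ≤ R) :
    Tendsto (fun n => pc g a (u n) x) atTop (𝓝 (pc g a R x)) := by
  unfold pc
  simp_rw [← integral_indicator (An_meas _ _)]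
  apply tendsto_integral_of_dominated_convergence ((An V a R).indicator fun ξ => ‖g ξ‖)
  · intro n
    exact ((integrable_indicator_iff (An_meas _ _)).2 (int_ph (int_An hg a (u n)) x)).aestronglyMeasurable
  · exact (integrable_indicator_iff (An_meas _ _)).2 (int_An hg a R).norm
  · intro n
    refine Eventually.of_forall fun ξ => ?_
    by_cases h : ξ ∈ An V a (u n)
    · have h' : ξ ∈ An V a R := ⟨h.1, h.2.trans_le (hul n)⟩
      rw [indicator_of_mem h, indicator_of_mem h', norm_mul, Pool.Agent.Q261.ST.norm_ph, one_mul]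
    · rw [indicator_of_notMem h, norm_zero]
      exact indicator_nonneg (fun _ _ => norm_nonneg _) _
  · refine Eventually.of_forall fun ξ => ?_
    by_cases h : ξ ∈ An V a R
    · have h3 : ∀ᶠ n in atTop, ‖ξ‖ < u n := hu.eventually_const_lt h.2
      apply tendsto_const_nhds.congr'
      filter_upwards [h3] with n hn
      rw [indicator_of_mem h, indicator_of_mem (show ξ ∈ An V a (u n) from ⟨h.1, hn⟩)]
    · have h3 : ∀ n, ξ ∉ An V a (u n) := fun n hn => h ⟨hn.1, hn.2.trans_le (hul n)⟩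
      apply tendsto_const_nhds.congr
      intro n
      rw [indicator_of_notMem h, indicator_of_notMem (h3 n)]

/-- the majorant dominates the partial integrals inside the annulus -/
theorem chain {g : V → ℂ} (hg : MemLp g 2 volume) {a b R : ℝ} (h1 : a ≤ R) (h2 : R ≤ b) (x : V) :
    ‖pc g a R x‖ₑ ≤ M g a b x := by
  rcases h2.eq_or_lt with h2 | h2
  · have h3 := le_Q g a b 0 0 (by norm_num) x
    have h4 := A_top a b 0
    rw [pow_zero] at h4
    rw [A_zero, zero_add, h4] at h3
    rw [h2]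
    exact h3.trans (ENNReal.le_tsum (f := fun j => Q g a b j x) 0)
  · have h3 : Tendsto (fun J => ‖pc g a (A a b J (idx a b J R)) x‖ₑ) atTop
        (𝓝 ‖pc g a R x‖ₑ) :=
      (pc_left hg x a R _ (A_idx_tendsto h1 h2) (fun n => A_idx_le h1 h2)).enorm
    apply le_of_tendsto' h3
    intro J
    refine (chain_fin hg h1 h2 x J).trans ?_
    unfold M
    calc ∑ j ∈ Finset.range J, Q g a b (j + 1) x ≤ ∑' j, Q g a b (j + 1) x := ENNReal.sum_le_tsum _
      _ ≤ ∑' j, Q g a b j x := ENNReal.tsum_comp_le_tsum_of_injective (Nat.succ_injective) _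

lemma pc_cont {g : V → ℂ} (hg : MemLp g 2 volume) (a b : ℝ) : Continuous (pc g a b) :=
  (Pool.Agent.Q261.ST.continuous_c _ _ (int_An hg a b)).comp
    (continuous_const.prodMk continuous_id : Continuous fun x : V => ((0 : ℝ), x))

lemma Q2_meas {g : V → ℂ} (hg : MemLp g 2 volume) (a b : ℝ) (j : ℕ) : Measurable (Q2 g a b j) := by
  unfold Q2
  exact Finset.measurable_sum _ fun i _ => ((pc_cont hg _ _).measurable.enorm).pow_const 2

lemma Q_meas {g : V → ℂ} (hg : MemLp g 2 volume) (a b : ℝ) (j : ℕ) : Measurable (Q g a b j) := by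
  unfold Q
  exact (Q2_meas hg a b j).pow_const _

lemma M_meas {g : V → ℂ} (hg : MemLp g 2 volume) (a b : ℝ) : Measurable (M g a b) := by
  unfold M
  exact Measurable.tsum fun j => Q_meas hg a b j

/-- the energy of the annulus -/
noncomputable def En (g : V → ℂ) (a b : ℝ) : ℝ≥0∞ := ∫⁻ ξ in An V a b, ‖g ξ‖ₑ ^ 2

lemma parts_sum (g : V → ℂ) {a b : ℝ} (hab : a ≤ b) (j : ℕ) :
    ∑ i ∈ Finset.range (2 ^ j), En g (A a b j i) (A a b j (i + 1)) ≤ En g a b := by
  unfold En
  rw [← lintegral_biUnion_finset]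
  · apply lintegral_mono_set
    intro ξ hξ
    simp only [mem_iUnion, exists_prop, Finset.mem_range] at hξ
    obtain ⟨i, hi, h1, h2⟩ := hξ
    exact ⟨(A_ge hab j i).trans h1, h2.trans_le (A_le hab j (i + 1) hi)⟩
  · intro i _ i' _ hii
    rw [Function.onFun, disjoint_left]
    intro ξ h1 h2
    rcases lt_or_gt_of_ne hii with h | h
    · have h3 := A_mono hab j (show i + 1 ≤ i' from h)
      linarith [h1.2, h2.1]
    · have h3 := A_mono hab j (show i' + 1 ≤ i from h)
      linarith [h1.1, h2.2]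
  · intro i _
    exact An_meas _ _

/-- the square sums at one level -/
lemma level [Nontrivial V] {g : V → ℂ} (hg : MemLp g 2 volume) {a b : ℝ} (ha : 0 ≤ a) (hab : a ≤ b)
    (j : ℕ) :
    ∫⁻ x : V, Q2 g a b j x * ENNReal.ofReal (wt x) ≤
      ENNReal.ofReal (C1 V * min 1 ((b - a) / 2 ^ j)) * En g a b := by
  unfold Q2
  simp_rw [Finset.sum_mul]
  rw [lintegral_finsetSum]
  · calc ∑ i ∈ Finset.range (2 ^ j), ∫⁻ x : V,
          ‖pc g (A a b j i) (A a b j (i + 1)) x‖ₑ ^ 2 * ENNReal.ofReal (wt x)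
        ≤ ∑ i ∈ Finset.range (2 ^ j), ENNReal.ofReal (C1 V * min 1 ((b - a) / 2 ^ j)) *
          En g (A a b j i) (A a b j (i + 1)) := by
          apply Finset.sum_le_sum
          intro i _
          have h := piece hg (A a b j i) (A a b j (i + 1)) (ha.trans (A_ge hab j i))
            (A_mono hab j (Nat.le_succ i))
          rw [A_step] at h
          exact h
      _ = ENNReal.ofReal (C1 V * min 1 ((b - a) / 2 ^ j)) *
          ∑ i ∈ Finset.range (2 ^ j), En g (A a b j i) (A a b j (i + 1)) := by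
          rw [Finset.mul_sum]
      _ ≤ _ := mul_le_mul' le_rfl (parts_sum g hab j)
  · intro i _
    exact (((pc_cont hg _ _).measurable.enorm).pow_const 2).mul
      (Pool.Agent.Q261.ST.continuous_wt.measurable.ennreal_ofReal)

/-- the weights -/
noncomputable def al (m j : ℕ) : ℝ := (3 / 4) ^ (j - m)

lemma al_pos (m j : ℕ) : 0 < al m j := by
  unfold al
  positivity

lemma le_al (m j : ℕ) (w : ℝ) (hw : w ≤ 2 ^ m) : min 1 (w / 2 ^ j) ≤ al m j ^ 2 := by
  unfold al
  rcases le_total j m with h | h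
  · rw [Nat.sub_eq_zero_of_le h]
    simp
  · obtain ⟨i, rfl⟩ := Nat.exists_eq_add_of_le h
    refine (min_le_right _ _).trans ?_
    rw [Nat.add_sub_cancel_left, ← pow_mul, mul_comm i, pow_mul]
    calc w / 2 ^ (m + i) ≤ 2 ^ m / 2 ^ (m + i) := by gcongr
      _ = (1 / 2) ^ i := by
          rw [pow_add, div_mul_eq_div_div, div_self (by positivity), one_div, one_div, inv_pow]
      _ ≤ _ := pow_le_pow_left₀ (by norm_num) (by norm_num) i

lemma al_sum (m : ℕ) : ∑' j, ENNReal.ofReal (al m j) = ENNReal.ofReal (m + 4) := by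
  have h1 : ∑' j, ENNReal.ofReal (al m j) = ∑ j ∈ Finset.range m, ENNReal.ofReal (al m j) +
      ∑' i, ENNReal.ofReal (al m (i + m)) :=
    (Summable.sum_add_tsum_nat_add' ENNReal.summable).symm
  rw [h1]
  have h2 : ∑ j ∈ Finset.range m, ENNReal.ofReal (al m j) = ENNReal.ofReal m := by
    rw [Finset.sum_congr rfl (g := fun _ => (1 : ℝ≥0∞)) (fun j hj => by
      unfold al
      rw [Nat.sub_eq_zero_of_le (Finset.mem_range.1 hj).le, pow_zero, ENNReal.ofReal_one])]
    simp
  have h4 : ∑' i, ENNReal.ofReal (al m (i + m)) = ENNReal.ofReal 4 := by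
    have h5 : Summable (fun i : ℕ => (3 / 4 : ℝ) ^ i) :=
      (summable_geometric_of_lt_one (by norm_num) (by norm_num))
    have h6 : ∀ i, al m (i + m) = (3 / 4) ^ i := by
      intro i
      unfold al
      rw [Nat.add_sub_cancel]
    simp_rw [h6]
    rw [← ENNReal.ofReal_tsum_of_nonneg (fun i => by positivity) h5,
      tsum_geometric_of_lt_one (by norm_num) (by norm_num)]
    norm_num
  rw [h2, h4, ← ENNReal.ofReal_add (by positivity) (by norm_num)]

/-- the square integral of the majorant -/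
theorem M_bound [Nontrivial V] {g : V → ℂ} (hg : MemLp g 2 volume) {a b : ℝ} (ha : 0 ≤ a)
    (hab : a ≤ b) (m : ℕ) (hm : b - a ≤ 2 ^ m) :
    ∫⁻ x : V, M g a b x ^ 2 * ENNReal.ofReal (wt x) ≤
      ENNReal.ofReal (C1 V * (m + 4) ^ 2) * En g a b := by
  have hC := C1_nonneg (V := V)
  have hwm : Measurable fun x : V => ENNReal.ofReal (wt x) :=
    Pool.Agent.Q261.ST.continuous_wt.measurable.ennreal_ofReal
  calc ∫⁻ x : V, M g a b x ^ 2 * ENNReal.ofReal (wt x)
      ≤ ∫⁻ x : V, ENNReal.ofReal (m + 4) *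
        ∑' j, (Q2 g a b j x * ENNReal.ofReal (wt x)) / ENNReal.ofReal (al m j) := by
        apply lintegral_mono
        intro x
        have h1 := Pool.Agent.Q261.ST.cs_tsum (fun j => Q g a b j x) (al m) (al_pos m)
        rw [al_sum] at h1
        simp_rw [Q_sq] at h1
        calc M g a b x ^ 2 * ENNReal.ofReal (wt x)
            ≤ (ENNReal.ofReal (m + 4) * ∑' j, Q2 g a b j x / ENNReal.ofReal (al m j)) *
              ENNReal.ofReal (wt x) := mul_le_mul' h1 le_rfl
          _ = _ := by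
            rw [mul_assoc, ← ENNReal.tsum_mul_right]
            congr 2
            funext j
            rw [ENNReal.div_eq_inv_mul, ENNReal.div_eq_inv_mul, mul_assoc]
    _ = ENNReal.ofReal (m + 4) * ∑' j, (∫⁻ x : V, Q2 g a b j x * ENNReal.ofReal (wt x)) /
          ENNReal.ofReal (al m j) := by
        rw [lintegral_const_mul' _ _ ENNReal.ofReal_ne_top, lintegral_tsum]
        · congr 2
          funext j
          simp_rw [ENNReal.div_eq_inv_mul]
          rw [lintegral_const_mul' _ _ (by simpa using al_pos m j)]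
        · intro j
          exact (((Q2_meas hg a b j).mul hwm).div_const _).aemeasurable
    _ ≤ ENNReal.ofReal (m + 4) * ∑' j, ENNReal.ofReal (C1 V * al m j) * En g a b := by
        refine mul_le_mul' le_rfl (ENNReal.tsum_le_tsum fun j => ?_)
        have h3 := level hg ha hab j
        calc (∫⁻ x : V, Q2 g a b j x * ENNReal.ofReal (wt x)) / ENNReal.ofReal (al m j)
            ≤ (ENNReal.ofReal (C1 V * min 1 ((b - a) / 2 ^ j)) * En g a b) /
              ENNReal.ofReal (al m j) := ENNReal.div_le_div_right h3 _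
          _ = ENNReal.ofReal (C1 V * min 1 ((b - a) / 2 ^ j) / al m j) * En g a b := by
              rw [ENNReal.ofReal_div_of_pos (al_pos m j), ENNReal.div_eq_inv_mul,
                ENNReal.div_eq_inv_mul, mul_assoc]
          _ ≤ _ := by
              refine mul_le_mul' (ENNReal.ofReal_le_ofReal ?_) le_rfl
              have h5 := al_pos m j
              rw [div_le_iff₀ h5, mul_assoc]
              refine mul_le_mul_of_nonneg_left ?_ hC
              rw [← sq]
              exact le_al m j _ hm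
    _ = _ := by
        rw [ENNReal.tsum_mul_right]
        have : ∑' j, ENNReal.ofReal (C1 V * al m j) = ENNReal.ofReal (C1 V * (m + 4)) := by
          rw [ENNReal.ofReal_mul hC, ← al_sum m, ← ENNReal.tsum_mul_left]
          congr 1
          funext j
          rw [ENNReal.ofReal_mul hC]
        rw [this, ← mul_assoc, ← ENNReal.ofReal_mul (by positivity)]
        congr 2
        ring

end Q87.RA
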