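import Pool.Agent.Q87.RA.Rand

/-! Almost sure convergence almost everywhere. -/

set_option autoImplicit false

namespace Q87.RA

open MeasureTheory ProbabilityTheory Filter Set Topology Metric
open scoped ENNReal NNReal RealInnerProductSpace
open Pool.Agent.Q261.ST (wt ph)

variable {V : Type*} [NormedAddCommGroup V] [InnerProductSpace ℝ V] [FiniteDimensional ℝ V]
  [MeasurableSpace V] [BorelSpace V]

/-- the tail of a sequence -/
noncomputable def cut (N : ℕ) (a : ℕ → ℂ) (k : ℕ) : ℂ := if k < N then 0 else a k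

lemma ps_cut {Ω : Type*} (X : ℕ → Ω → ℂ) (a : ℕ → ℂ) (ω : Ω) (N n : ℕ) (hn : N ≤ n) :
    ps X (cut N a) n ω = ps X a n ω - ps X a N ω := by
  induction n, hn using Nat.le_induction with
  | base =>
    rw [sub_self]
    unfold ps cut
    refine Finset.sum_eq_zero fun k hk => ?_
    rw [if_pos (Finset.mem_range.1 hk), mul_zero]
  | succ n hn ih =>
    rw [ps, Finset.sum_range_succ, ps, Finset.sum_range_succ]
    change ps X (cut N a) n ω + X n ω * cut N a n = ps X a n ω + X n ω * a n - ps X a N ω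
    rw [ih]
    unfold cut
    rw [if_neg (by omega)]
    ring

lemma cut_sum (N : ℕ) (a : ℕ → ℂ) : ∑' k, ‖cut N a k‖ₑ ^ 2 = ∑' k, ‖a (k + N)‖ₑ ^ 2 := by
  have h1 : ∑' k, ‖cut N a k‖ₑ ^ 2 = ∑ k ∈ Finset.range N, ‖cut N a k‖ₑ ^ 2 +
      ∑' k, ‖cut N a (k + N)‖ₑ ^ 2 :=
    (Summable.sum_add_tsum_nat_add' ENNReal.summable).symm
  rw [h1, Finset.sum_eq_zero, zero_add]
  · congr 1
    funext k
    unfold cut
    rw [if_neg (by omega)]
  · intro k hk
    unfold cut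
    rw [if_pos (Finset.mem_range.1 hk)]
    simp

lemma lt_of_sq_lt {a b : ℝ≥0∞} (h : a ^ 2 < b ^ 2) : a < b :=
  lt_of_not_ge fun hge => absurd h (not_lt.2 (pow_le_pow_left' hge 2))

lemma cauchy_of_inf {Ω : Type*} (X : ℕ → Ω → ℂ) (a : ℕ → ℂ) (ω : Ω)
    (h : ⨅ N, mx X (cut N a) ω = 0) : ∃ z, Tendsto (fun n => ps X a n ω) atTop (𝓝 z) := by
  apply cauchySeq_tendsto_of_complete
  rw [Metric.cauchySeq_iff']
  intro ε hε
  have h1 : ⨅ N, mx X (cut N a) ω < ENNReal.ofReal ε ^ 2 := by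
    rw [h]
    have : ENNReal.ofReal ε ≠ 0 := by simpa using hε
    positivity
  obtain ⟨N, hN⟩ := iInf_lt_iff.1 h1
  refine ⟨N, fun n hn => ?_⟩
  have h2 : ‖ps X (cut N a) n ω‖ₑ ^ 2 < ENNReal.ofReal ε ^ 2 :=
    (le_iSup (fun n => ‖ps X (cut N a) n ω‖ₑ ^ 2) n).trans_lt hN
  rw [ps_cut X a ω N n hn] at h2
  have h3 := lt_of_sq_lt h2
  rw [← ofReal_norm] at h3
  rw [dist_eq_norm]
  exact (ENNReal.ofReal_lt_ofReal_iff hε).1 h3

variable {Ω : Type*} [MeasurableSpace Ω]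

lemma int_inf (P : Measure Ω) [IsProbabilityMeasure P] (X : ℕ → Ω → ℂ)
    (hX : Noise P X) (a : ℕ → ℂ) (ha : ∑' k, ‖a k‖ₑ ^ 2 ≠ ⊤) :
    ∫⁻ ω, (⨅ N, mx X (cut N a) ω) ∂P = 0 := by
  have h1 : Tendsto (fun N => 4 * ∑' k, ‖a (k + N)‖ₑ ^ 2) atTop (𝓝 (4 * 0)) :=
    ENNReal.Tendsto.const_mul (ENNReal.tendsto_sum_nat_add (fun k => ‖a k‖ₑ ^ 2) ha)
      (Or.inr ENNReal.ofNat_ne_top)
  rw [mul_zero] at h1
  refine le_antisymm (ge_of_tendsto' h1 fun N => ?_) zero_le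
  calc ∫⁻ ω, (⨅ N, mx X (cut N a) ω) ∂P ≤ ∫⁻ ω, mx X (cut N a) ω ∂P :=
        lintegral_mono fun ω => iInf_le _ N
    _ ≤ 4 * ∑' k, ‖cut N a k‖ₑ ^ 2 := doob P X hX.meas hX.le hX.ind hX.mean _
    _ = _ := by rw [cut_sum]

lemma ae_finite {F : V → ℝ≥0∞} (hF : Measurable F)
    (h : ∫⁻ x : V, F x * ENNReal.ofReal (wt x) ≠ ⊤) : ∀ᵐ x : V, F x ≠ ⊤ := by
  have hwm : Measurable fun x : V => ENNReal.ofReal (wt x) :=
    Pool.Agent.Q261.ST.continuous_wt.measurable.ennreal_ofReal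
  have h1 := ae_lt_top (hF.mul hwm) h
  filter_upwards [h1] with x hx
  intro hcon
  simp only [Pi.mul_apply] at hx
  rw [hcon, ENNReal.top_mul] at hx
  · exact (lt_irrefl _ hx)
  · have := Pool.Agent.Q261.ST.wt_pos x
    simpa using this

/-- almost sure convergence almost everywhere -/
theorem conv_ae [Nontrivial V] (P : Measure Ω) [IsProbabilityMeasure P] (X : ℕ → Ω → ℂ)
    (hX : Noise P X) {r : ℕ → ℝ} {L : ℝ} (hL : Radii r L) {g : V → ℂ}
    (hg : MemLp g 2 volume) :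
    ∀ᵐ ω ∂P, ∀ᵐ x : V, ∃ z : ℂ,
      Tendsto (fun R => pc (rnd r (fun k => X k ω) g) 0 R x) atTop (𝓝 z) := by
  obtain ⟨m, hm⟩ : ∃ m : ℕ, L ≤ 2 ^ m := by
    obtain ⟨m, hm⟩ := pow_unbounded_of_one_lt L (by norm_num : (1 : ℝ) < 2)
    exact ⟨m, hm.le⟩
  have h : Radii r (2 ^ m) := ⟨hL.zero, hL.mono, hL.top, fun k => (hL.gap k).trans hm⟩
  have hg2 : ∫⁻ ξ, ‖g ξ‖ₑ ^ 2 ≠ ⊤ := by
    have h3 := hg.eLpNorm_lt_top
    rw [eLpNorm_lt_top_iff_lintegral_rpow_enorm_lt_top (by norm_num) (by norm_num)] at h3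
    simpa using h3.ne
  have ham : ∀ k, Measurable fun x : V => an r g x k := fun k => (pc_cont hg _ _).measurable
  have hMm : Measurable fun x : V => ∑' k, M g (r k) (r (k + 1)) x ^ 2 :=
    Measurable.tsum fun k => (M_meas hg _ _).pow_const 2
  have hSm : Measurable fun x : V => ∑' k, ‖an r g x k‖ₑ ^ 2 :=
    Measurable.tsum fun k => ((ham k).enorm).pow_const 2
  have f1 : ∀ᵐ x : V, ∑' k, M g (r k) (r (k + 1)) x ^ 2 ≠ ⊤ := by
    refine ae_finite hMm (ne_top_of_le_ne_top ?_ (M_sum m h hg))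
    exact ENNReal.mul_ne_top ENNReal.ofReal_ne_top hg2
  have f2 : ∀ᵐ x : V, ∑' k, ‖an r g x k‖ₑ ^ 2 ≠ ⊤ := by
    refine ae_finite hSm (ne_top_of_le_ne_top ?_ (an_sum h hg))
    exact ENNReal.mul_ne_top ENNReal.ofReal_ne_top hg2
  have hcm : ∀ N k, Measurable fun x : V => cut N (an r g x) k := by
    intro N k
    unfold cut
    split_ifs
    · exact measurable_const
    · exact ham k
  have hGm : Measurable fun p : Ω × V => ⨅ N, mx X (cut N (an r g p.2)) p.1 :=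
    Measurable.iInf fun N => mx_meas X hX.meas (fun x => cut N (an r g x)) (hcm N)
  have h5 : ∫⁻ x : V, ∫⁻ ω, (⨅ N, mx X (cut N (an r g x)) ω) ∂P = 0 := by
    rw [lintegral_eq_zero_iff']
    · filter_upwards [f2] with x hx
      exact int_inf P X hX _ hx
    · exact (hGm.lintegral_prod_left').aemeasurable
  have h6 : ∫⁻ ω, (∫⁻ x : V, (⨅ N, mx X (cut N (an r g x)) ω)) ∂P = 0 := by
    rw [lintegral_lintegral_swap hGm.aemeasurable]
    exact h5
  have h7 : ∀ᵐ ω ∂P, ∫⁻ x : V, (⨅ N, mx X (cut N (an r g x)) ω) = 0 := by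
    have := (lintegral_eq_zero_iff (hGm.lintegral_prod_right')).1 h6
    exact this
  filter_upwards [h7] with ω hω
  have h8 : ∀ᵐ x : V, (⨅ N, mx X (cut N (an r g x)) ω) = 0 := by
    have := (lintegral_eq_zero_iff (hGm.comp measurable_prodMk_left)).1 hω
    exact this
  filter_upwards [h8, f1] with x hx1 hx2
  obtain ⟨z, hz⟩ := cauchy_of_inf X (an r g x) ω hx1
  refine ⟨z, ?_⟩
  have hM0 : Tendsto (fun k => M g (r k) (r (k + 1)) x ^ 2) atTop (𝓝 0) :=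
    ENNReal.tendsto_atTop_zero_of_tsum_ne_top hx2
  rw [Metric.tendsto_atTop]
  intro ε hε
  have e1 : ∀ᶠ n in atTop, dist (ps X (an r g x) n ω) z < ε / 2 :=
    (Metric.tendsto_nhds.1 hz) (ε / 2) (half_pos hε)
  have e2 : ∀ᶠ k in atTop, M g (r k) (r (k + 1)) x ^ 2 < ENNReal.ofReal (ε / 2) ^ 2 := by
    apply hM0.eventually_lt_const
    have : ENNReal.ofReal (ε / 2) ≠ 0 := by simpa using hε
    positivity
  obtain ⟨N, hN⟩ := (e1.and e2).exists_forall_of_atTop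
  refine ⟨max 0 (r N), fun R hR => ?_⟩
  obtain ⟨K, hK1, hK2⟩ := h.exists_idx ((le_max_left _ _).trans hR)
  have hKN : N ≤ K := by
    by_contra hcon
    push Not at hcon
    have := h.mono (show K + 1 ≤ N from hcon)
    linarith [(le_max_right 0 (r N)).trans hR]
  rw [decomp X hX.le h hg ω x hK1 hK2.le]
  obtain ⟨g1, g2⟩ := hN K hKN
  have g3 : ‖X K ω * pc g (r K) R x‖ < ε / 2 := by
    have g4 : ‖pc g (r K) R x‖ₑ < ENNReal.ofReal (ε / 2) :=
      (chain hg hK1 hK2.le x).trans_lt (lt_of_sq_lt g2)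
    rw [← ofReal_norm] at g4
    have g5 := (ENNReal.ofReal_lt_ofReal_iff (half_pos hε)).1 g4
    rw [norm_mul]
    nlinarith [hX.le K ω, norm_nonneg (pc g (r K) R x), norm_nonneg (X K ω)]
  rw [dist_eq_norm] at g1 ⊢
  calc ‖ps X (an r g x) K ω + X K ω * pc g (r K) R x - z‖
      = ‖(ps X (an r g x) K ω - z) + X K ω * pc g (r K) R x‖ := by congr 1; ring
    _ ≤ ‖ps X (an r g x) K ω - z‖ + ‖X K ω * pc g (r K) R x‖ := norm_add_le _ _
    _ < ε / 2 + ε / 2 := add_lt_add g1 g3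
    _ = ε := by ring

end Q87.RA
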