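import Mathlib

/-! Doob's maximal inequality for sums of independent centred multipliers of modulus at most one. -/

set_option autoImplicit false

namespace Q87.RA

open MeasureTheory ProbabilityTheory Filter
open scoped ENNReal

/-- the running maximum -/
noncomputable def run (s : ℕ → ℝ) : ℕ → ℝ
  | 0 => s 0
  | n + 1 => max (run s n) (s (n + 1))

lemma le_run (s : ℕ → ℝ) (n : ℕ) : s n ≤ run s n := by
  cases n with
  | zero => exact le_rfl
  | succ n => exact le_max_right _ _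

lemma run_mono (s : ℕ → ℝ) : Monotone (run s) :=
  monotone_nat_of_le_succ fun _ => le_max_left _ _

lemma run_nonneg (s : ℕ → ℝ) (hs : ∀ n, 0 ≤ s n) (n : ℕ) : 0 ≤ run s n := (hs n).trans (le_run s n)

lemma run_le (s : ℕ → ℝ) (B : ℝ) (n : ℕ) (hB : ∀ k ≤ n, s k ≤ B) : run s n ≤ B := by
  induction n with
  | zero => exact hB 0 le_rfl
  | succ n ih => exact max_le (ih fun k hk => hB k (hk.trans (Nat.le_succ n))) (hB _ le_rfl)

/-- the pathwise form of Doob's inequality -/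
lemma path (s : ℕ → ℝ) (n : ℕ) :
    ∑ k ∈ Finset.range n, run s k * (s (k + 1) - s k) ≤ run s n * s n - run s n ^ 2 / 2 := by
  induction n with
  | zero =>
    simp only [Finset.range_zero, Finset.sum_empty, run]
    nlinarith [sq_nonneg (s 0)]
  | succ n ih =>
    rw [Finset.sum_range_succ]
    have h1 : run s (n + 1) = max (run s n) (s (n + 1)) := rfl
    rcases le_total (run s n) (s (n + 1)) with h | h
    · rw [h1, max_eq_right h]
      nlinarith [sq_nonneg (s (n + 1) - run s n)]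
    · rw [h1, max_eq_left h]
      nlinarith

lemma path_sq (s : ℕ → ℝ) (n : ℕ) :
    run s n ^ 2 ≤ 4 * s n ^ 2 - 4 * ∑ k ∈ Finset.range n, run s k * (s (k + 1) - s k) := by
  have h := path s n
  nlinarith [sq_nonneg (run s n - 2 * s n)]

/-- the inner estimate -/
lemma inner_bound (ν : Measure ℂ) [IsProbabilityMeasure ν] (hν : ∀ᵐ z ∂ν, ‖z‖ ≤ 1)
    (h0 : ∫ z, z ∂ν = 0) (u a : ℂ) (m : ℝ) (hm : 0 ≤ m) :
    ∫ z, (4 * (‖u + z * a‖ ^ 2 - ‖u‖ ^ 2) - 4 * (m * (‖u + z * a‖ - ‖u‖))) ∂ν ≤ 4 * ‖a‖ ^ 2 := by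
  have hidm : AEStronglyMeasurable (fun z : ℂ => z) ν := continuous_id.aestronglyMeasurable
  have hid : Integrable (fun z : ℂ => z) ν := by
    refine (integrable_const (1 : ℝ)).mono hidm ?_
    filter_upwards [hν] with z hz
    simpa using hz
  have hlin : Integrable (fun z : ℂ => u + z * a) ν := (integrable_const u).add (hid.mul_const a)
  have hlinn : Integrable (fun z : ℂ => ‖u + z * a‖) ν := hlin.norm
  have hsq : Integrable (fun z : ℂ => ‖u + z * a‖ ^ 2) ν := by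
    refine (integrable_const ((‖u‖ + ‖a‖) ^ 2)).mono ?_ ?_
    · exact (Continuous.aestronglyMeasurable (by fun_prop))
    · filter_upwards [hν] with z hz
      rw [Real.norm_of_nonneg (by positivity), Real.norm_of_nonneg (by positivity)]
      refine pow_le_pow_left₀ (norm_nonneg _) ?_ 2
      refine (norm_add_le _ _).trans ?_
      rw [norm_mul]
      nlinarith [norm_nonneg a, norm_nonneg u]
  have h1 : ‖u‖ ≤ ∫ z, ‖u + z * a‖ ∂ν := by
    have h2 : ∫ z, (u + z * a) ∂ν = u := by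
      rw [integral_add (integrable_const u) (hid.mul_const a), integral_mul_const, h0]
      simp
    calc ‖u‖ = ‖∫ z, (u + z * a) ∂ν‖ := by rw [h2]
      _ ≤ _ := norm_integral_le_integral_norm _
  have h3 : ∫ z, ‖u + z * a‖ ^ 2 ∂ν ≤ ‖u‖ ^ 2 + ‖a‖ ^ 2 := by
    have e : ∀ z : ℂ, ‖u + z * a‖ ^ 2 = ‖u‖ ^ 2 + 2 * ((z * (a * (starRingEnd ℂ) u)).re) +
        ‖z‖ ^ 2 * ‖a‖ ^ 2 := by
      intro z
      rw [← Complex.normSq_eq_norm_sq, Complex.normSq_add, Complex.normSq_eq_norm_sq,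
        Complex.normSq_eq_norm_sq, norm_mul]
      have : (u * (starRingEnd ℂ) (z * a)).re = (z * (a * (starRingEnd ℂ) u)).re := by
        simp only [map_mul, Complex.mul_re, Complex.mul_im, Complex.conj_re, Complex.conj_im]
        ring
      rw [this]
      ring
    have hre : Integrable (fun z : ℂ => (z * (a * (starRingEnd ℂ) u)).re) ν :=
      (hid.mul_const (a * (starRingEnd ℂ) u)).re
    have hn2 : Integrable (fun z : ℂ => ‖z‖ ^ 2 * ‖a‖ ^ 2) ν := by
      refine (integrable_const (‖a‖ ^ 2)).mono ?_ ?_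
      · exact (Continuous.aestronglyMeasurable (by fun_prop))
      · filter_upwards [hν] with z hz
        rw [Real.norm_of_nonneg (by positivity), Real.norm_of_nonneg (by positivity)]
        have : ‖z‖ ^ 2 ≤ 1 := pow_le_one₀ (norm_nonneg _) hz
        nlinarith [sq_nonneg ‖a‖]
    have hz2 : ∫ z, (z * (a * (starRingEnd ℂ) u)).re ∂ν = 0 := by
      have h4 := integral_re (hid.mul_const (a * (starRingEnd ℂ) u))
      have h5 : ∫ z, z * (a * (starRingEnd ℂ) u) ∂ν = 0 := by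
        rw [integral_mul_const, h0, zero_mul]
      rw [h5] at h4
      simpa using h4
    simp_rw [e]
    have hi4 : Integrable (fun z : ℂ => 2 * (z * (a * (starRingEnd ℂ) u)).re) ν := hre.const_mul 2
    have hi5 : Integrable (fun z : ℂ => ‖u‖ ^ 2 + 2 * (z * (a * (starRingEnd ℂ) u)).re) ν :=
      (integrable_const _).add hi4
    rw [integral_add hi5 hn2, integral_add (integrable_const _) hi4, integral_const_mul, hz2]
    have h6 : ∫ z, ‖z‖ ^ 2 * ‖a‖ ^ 2 ∂ν ≤ ‖a‖ ^ 2 := by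
      calc ∫ z, ‖z‖ ^ 2 * ‖a‖ ^ 2 ∂ν ≤ ∫ _, ‖a‖ ^ 2 ∂ν := by
            refine integral_mono_ae hn2 (integrable_const _) ?_
            filter_upwards [hν] with z hz
            have : ‖z‖ ^ 2 ≤ 1 := pow_le_one₀ (norm_nonneg _) hz
            nlinarith [sq_nonneg ‖a‖]
        _ = ‖a‖ ^ 2 := by simp
    simp only [integral_const, probReal_univ, smul_eq_mul, one_mul, mul_zero, add_zero]
    linarith
  have hi1 : Integrable (fun z : ℂ => 4 * (‖u + z * a‖ ^ 2 - ‖u‖ ^ 2)) ν :=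
    (hsq.sub (integrable_const _)).const_mul 4
  have hi2 : Integrable (fun z : ℂ => 4 * (m * (‖u + z * a‖ - ‖u‖))) ν :=
    ((hlinn.sub (integrable_const _)).const_mul m).const_mul 4
  rw [integral_sub hi1 hi2, integral_const_mul, integral_const_mul, integral_const_mul,
    integral_sub hsq (integrable_const _), integral_sub hlinn (integrable_const _)]
  simp only [integral_const, probReal_univ, smul_eq_mul, one_mul]
  nlinarith [mul_nonneg hm (sub_nonneg.2 h1)]

variable {Ω : Type*} [MeasurableSpace Ω]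

/-- the partial sums -/
noncomputable def ps (X : ℕ → Ω → ℂ) (a : ℕ → ℂ) (n : ℕ) (ω : Ω) : ℂ :=
  ∑ k ∈ Finset.range n, X k ω * a k

lemma ps_succ (X : ℕ → Ω → ℂ) (a : ℕ → ℂ) (n : ℕ) (ω : Ω) :
    ps X a (n + 1) ω = ps X a n ω + X n ω * a n := by
  unfold ps
  rw [Finset.sum_range_succ]

lemma ps_norm_le (X : ℕ → Ω → ℂ) (hX : ∀ k ω, ‖X k ω‖ ≤ 1) (a : ℕ → ℂ) (n : ℕ) (ω : Ω) :
    ‖ps X a n ω‖ ≤ ∑ k ∈ Finset.range n, ‖a k‖ := by
  unfold ps
  refine (norm_sum_le _ _).trans (Finset.sum_le_sum fun k _ => ?_)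
  rw [norm_mul]
  nlinarith [hX k ω, norm_nonneg (a k)]

/-- the running maximum of the partial sums -/
noncomputable def rm (X : ℕ → Ω → ℂ) (a : ℕ → ℂ) (n : ℕ) (ω : Ω) : ℝ :=
  run (fun k => ‖ps X a k ω‖) n

lemma rm_nonneg (X : ℕ → Ω → ℂ) (a : ℕ → ℂ) (n : ℕ) (ω : Ω) : 0 ≤ rm X a n ω :=
  run_nonneg _ (fun _ => norm_nonneg _) n

lemma rm_le (X : ℕ → Ω → ℂ) (hX : ∀ k ω, ‖X k ω‖ ≤ 1) (a : ℕ → ℂ) (n : ℕ) (ω : Ω) :
    rm X a n ω ≤ ∑ k ∈ Finset.range n, ‖a k‖ := by
  refine run_le _ _ _ fun k hk => (ps_norm_le X hX a k ω).trans ?_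
  exact Finset.sum_le_sum_of_subset_of_nonneg (Finset.range_mono hk) fun _ _ _ => norm_nonneg _

lemma ps_meas' (m : MeasurableSpace Ω) (X : ℕ → Ω → ℂ) (a : ℕ → ℂ) (n : ℕ)
    (hX : ∀ k < n, Measurable[m] (X k)) : Measurable[m] (ps X a n) := by
  unfold ps
  refine Finset.measurable_sum _ fun k hk => ?_
  exact (hX k (Finset.mem_range.1 hk)).mul_const _

lemma rm_meas' (m : MeasurableSpace Ω) (X : ℕ → Ω → ℂ) (a : ℕ → ℂ) (n : ℕ)
    (hX : ∀ k < n, Measurable[m] (X k)) : Measurable[m] (rm X a n) := by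
  induction n with
  | zero =>
    have : rm X a 0 = fun ω => ‖ps X a 0 ω‖ := rfl
    rw [this]
    exact (ps_meas' m X a 0 (fun k hk => absurd hk (Nat.not_lt_zero k))).norm
  | succ n ih =>
    have : rm X a (n + 1) = fun ω => max (rm X a n ω) ‖ps X a (n + 1) ω‖ := rfl
    rw [this]
    exact (ih fun k hk => hX k (hk.trans (Nat.lt_succ_self n))).max (ps_meas' m X a (n + 1) hX).norm

/-- one step of the recursion -/
theorem step (P : Measure Ω) [IsProbabilityMeasure P] (X : ℕ → Ω → ℂ) (hXm : ∀ k, Measurable (X k))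
    (hX : ∀ k ω, ‖X k ω‖ ≤ 1) (hi : iIndepFun X P) (h0 : ∀ k, ∫ ω, X k ω ∂P = 0) (a : ℕ → ℂ)
    (n : ℕ) :
    ∫ ω, (4 * (‖ps X a (n + 1) ω‖ ^ 2 - ‖ps X a n ω‖ ^ 2) -
      4 * (rm X a n ω * (‖ps X a (n + 1) ω‖ - ‖ps X a n ω‖))) ∂P ≤ 4 * ‖a n‖ ^ 2 := by
  have hind : IndepFun (fun ω => (rm X a n ω, ps X a n ω)) (X n) P := by
    rcases Nat.eq_zero_or_pos n with hn | hn
    · subst hn
      have e : (fun ω => (rm X a 0 ω, ps X a 0 ω)) = fun _ => ((0 : ℝ), (0 : ℂ)) := by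
        funext ω
        simp [rm, run, ps]
      rw [e]
      exact indepFun_const_left _ _
    · obtain ⟨m, rfl⟩ : ∃ m, n = m + 1 := ⟨n - 1, by omega⟩
      have h1 := hi.indep_comap_natural_of_lt (fun k => (hXm k).stronglyMeasurable)
        (Nat.lt_succ_self m)
      have hle : MeasurableSpace.comap (fun ω => (rm X a (m + 1) ω, ps X a (m + 1) ω)) inferInstance ≤
          (Filtration.natural X (fun k => (hXm k).stronglyMeasurable)) m := by
        have hk : ∀ k < m + 1, Measurable[(Filtration.natural X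
            (fun k => (hXm k).stronglyMeasurable)) m] (X k) := by
          intro k hk
          exact ((Filtration.stronglyAdapted_natural (u := X)
            (fun k => (hXm k).stronglyMeasurable)) k).mono
              ((Filtration.natural X (fun k => (hXm k).stronglyMeasurable)).mono
                (Nat.lt_succ_iff.1 hk)) |>.measurable
        rw [← measurable_iff_comap_le]
        exact (rm_meas' _ X a (m + 1) hk).prodMk (ps_meas' _ X a (m + 1) hk)
      rw [IndepFun_iff_Indep]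
      exact indep_of_indep_of_le_left h1.symm hle
  have hUm : Measurable (fun ω => (rm X a n ω, ps X a n ω)) :=
    (rm_meas' _ X a n fun k _ => hXm k).prodMk (ps_meas' _ X a n fun k _ => hXm k)
  have hmap := (indepFun_iff_map_prod_eq_prod_map_map hUm.aemeasurable (hXm n).aemeasurable).1 hind
  set κ : Measure (ℝ × ℂ) := P.map (fun ω => (rm X a n ω, ps X a n ω)) with hκ
  set ν : Measure ℂ := P.map (X n) with hν
  have : IsProbabilityMeasure κ := Measure.isProbabilityMeasure_map hUm.aemeasurable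
  have : IsProbabilityMeasure ν := Measure.isProbabilityMeasure_map (hXm n).aemeasurable
  set φ : (ℝ × ℂ) × ℂ → ℝ := fun p => 4 * (‖p.1.2 + p.2 * a n‖ ^ 2 - ‖p.1.2‖ ^ 2) -
    4 * (p.1.1 * (‖p.1.2 + p.2 * a n‖ - ‖p.1.2‖)) with hφ
  have hφc : Continuous φ := by
    rw [hφ]
    fun_prop
  have hνn : ∀ᵐ z ∂ν, ‖z‖ ≤ 1 := by
    rw [hν, ae_map_iff (hXm n).aemeasurable (by measurability)]
    exact Eventually.of_forall (hX n)
  have hν0 : ∫ z, z ∂ν = 0 := by
    have h3 := integral_map (hXm n).aemeasurable (f := fun z : ℂ => z) (μ := P)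
      continuous_id.aestronglyMeasurable
    rw [hν, h3]
    exact h0 n
  set B : ℝ := ∑ k ∈ Finset.range n, ‖a k‖ with hB
  have hκ1 : ∀ᵐ u ∂κ, 0 ≤ u.1 ∧ u.1 ≤ B ∧ ‖u.2‖ ≤ B := by
    rw [hκ, ae_map_iff hUm.aemeasurable (by
      refine MeasurableSet.inter ?_ (MeasurableSet.inter ?_ ?_)
      · exact measurableSet_le measurable_const measurable_fst
      · exact measurableSet_le measurable_fst measurable_const
      · exact measurableSet_le measurable_snd.norm measurable_const)]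
    exact Eventually.of_forall fun ω => ⟨rm_nonneg X a n ω, rm_le X hX a n ω, ps_norm_le X hX a n ω⟩
  have hbd : ∀ᵐ p ∂(κ.prod ν), ‖φ p‖ ≤ 4 * ((B + ‖a n‖) ^ 2 + B ^ 2) + 4 * (B * ((B + ‖a n‖) + B)) := by
    have h1 : ∀ᵐ p ∂(κ.prod ν), (0 ≤ p.1.1 ∧ p.1.1 ≤ B ∧ ‖p.1.2‖ ≤ B) :=
      Measure.quasiMeasurePreserving_fst.ae hκ1
    have h2 : ∀ᵐ p ∂(κ.prod ν), ‖p.2‖ ≤ 1 := Measure.quasiMeasurePreserving_snd.ae hνn
    filter_upwards [h1, h2] with p hp1 hp2
    obtain ⟨q1, q2, q3⟩ := hp1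
    have q4 : ‖p.1.2 + p.2 * a n‖ ≤ B + ‖a n‖ := by
      refine (norm_add_le _ _).trans (add_le_add q3 ?_)
      rw [norm_mul]
      nlinarith [norm_nonneg (a n)]
    have hB0 : 0 ≤ B := q1.trans q2
    rw [hφ]
    refine (norm_sub_le _ _).trans (add_le_add ?_ ?_)
    · rw [norm_mul, Real.norm_of_nonneg (by norm_num : (0:ℝ) ≤ 4)]
      refine mul_le_mul_of_nonneg_left ?_ (by norm_num)
      refine (norm_sub_le _ _).trans (add_le_add ?_ ?_)
      · rw [Real.norm_of_nonneg (by positivity)]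
        exact pow_le_pow_left₀ (norm_nonneg _) q4 2
      · rw [Real.norm_of_nonneg (by positivity)]
        exact pow_le_pow_left₀ (norm_nonneg _) q3 2
    · rw [norm_mul, Real.norm_of_nonneg (by norm_num : (0:ℝ) ≤ 4), norm_mul,
        Real.norm_of_nonneg q1]
      refine mul_le_mul_of_nonneg_left ?_ (by norm_num)
      refine mul_le_mul q2 ?_ (norm_nonneg _) hB0
      refine (norm_sub_le _ _).trans (add_le_add ?_ ?_)
      · rw [norm_norm]; exact q4
      · rw [norm_norm]; exact q3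
  have hφi : Integrable φ (κ.prod ν) :=
    (integrable_const _).mono' hφc.aestronglyMeasurable hbd
  have e1 : ∫ ω, (4 * (‖ps X a (n + 1) ω‖ ^ 2 - ‖ps X a n ω‖ ^ 2) -
      4 * (rm X a n ω * (‖ps X a (n + 1) ω‖ - ‖ps X a n ω‖))) ∂P =
      ∫ p, φ p ∂(κ.prod ν) := by
    rw [← hmap, integral_map (hUm.prodMk (hXm n)).aemeasurable hφc.aestronglyMeasurable]
    congr 1
    funext ω
    simp only [hφ, ps_succ]
  rw [e1, integral_prod _ hφi]
  calc ∫ u, ∫ z, φ (u, z) ∂ν ∂κ ≤ ∫ _, 4 * ‖a n‖ ^ 2 ∂κ := by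
        refine integral_mono_ae hφi.integral_prod_left (integrable_const _) ?_
        filter_upwards [hκ1] with u hu
        exact inner_bound ν hνn hν0 u.2 (a n) u.1 hu.1
    _ = 4 * ‖a n‖ ^ 2 := by simp

/-- Doob's inequality in the real form -/
theorem doob_real (P : Measure Ω) [IsProbabilityMeasure P] (X : ℕ → Ω → ℂ)
    (hXm : ∀ k, Measurable (X k)) (hX : ∀ k ω, ‖X k ω‖ ≤ 1) (hi : iIndepFun X P)
    (h0 : ∀ k, ∫ ω, X k ω ∂P = 0) (a : ℕ → ℂ) (n : ℕ) :
    ∫ ω, rm X a n ω ^ 2 ∂P ≤ 4 * ∑ k ∈ Finset.range n, ‖a k‖ ^ 2 := by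
  have hpsm : ∀ n, Measurable (ps X a n) := fun n => ps_meas' _ X a n fun k _ => hXm k
  have hrmm : ∀ n, Measurable (rm X a n) := fun n => rm_meas' _ X a n fun k _ => hXm k
  set B : ℕ → ℝ := fun n => ∑ k ∈ Finset.range n, ‖a k‖ with hB
  have hBm : Monotone B := fun i j hij =>
    Finset.sum_le_sum_of_subset_of_nonneg (Finset.range_mono hij) fun _ _ _ => norm_nonneg _
  have hB0 : ∀ n, 0 ≤ B n := fun n => Finset.sum_nonneg fun _ _ => norm_nonneg _
  have bddI : ∀ (F : Ω → ℝ) (c : ℝ), Measurable F → (∀ ω, ‖F ω‖ ≤ c) → Integrable F P :=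
    fun F c hF hc => (integrable_const c).mono' hF.aestronglyMeasurable (Eventually.of_forall hc)
  have i1 : ∀ n, Integrable (fun ω => ‖ps X a n ω‖ ^ 2) P := fun n =>
    bddI _ (B n ^ 2) ((hpsm n).norm.pow_const 2) fun ω => by
      rw [Real.norm_of_nonneg (by positivity)]
      exact pow_le_pow_left₀ (norm_nonneg _) (ps_norm_le X hX a n ω) 2
  have i2 : ∀ n, Integrable (fun ω => rm X a n ω * (‖ps X a (n + 1) ω‖ - ‖ps X a n ω‖)) P := fun n =>
    bddI _ (B n * (B (n + 1) + B n)) ((hrmm n).mul ((hpsm (n + 1)).norm.sub (hpsm n).norm)) fun ω => by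
      rw [norm_mul, Real.norm_of_nonneg (rm_nonneg _ _ _ _)]
      refine mul_le_mul (rm_le X hX a n ω) ?_ (norm_nonneg _) (hB0 n)
      refine (norm_sub_le _ _).trans (add_le_add ?_ ?_)
      · rw [norm_norm]; exact ps_norm_le X hX a (n + 1) ω
      · rw [norm_norm]; exact ps_norm_le X hX a n ω
  have i3 : ∀ n, Integrable (fun ω => rm X a n ω ^ 2) P := fun n =>
    bddI _ (B n ^ 2) ((hrmm n).pow_const 2) fun ω => by
      rw [Real.norm_of_nonneg (by positivity)]
      exact pow_le_pow_left₀ (rm_nonneg _ _ _ _) (rm_le X hX a n ω) 2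
  have hsum : ∀ ω, 4 * ‖ps X a n ω‖ ^ 2 - 4 * ∑ k ∈ Finset.range n,
      rm X a k ω * (‖ps X a (k + 1) ω‖ - ‖ps X a k ω‖) =
      ∑ k ∈ Finset.range n, (4 * (‖ps X a (k + 1) ω‖ ^ 2 - ‖ps X a k ω‖ ^ 2) -
        4 * (rm X a k ω * (‖ps X a (k + 1) ω‖ - ‖ps X a k ω‖))) := by
    intro ω
    rw [Finset.sum_sub_distrib, ← Finset.mul_sum, ← Finset.mul_sum]
    congr 2
    have := Finset.sum_range_sub (fun k => ‖ps X a k ω‖ ^ 2) n
    rw [this]
    simp [ps]
  calc ∫ ω, rm X a n ω ^ 2 ∂P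
      ≤ ∫ ω, (∑ k ∈ Finset.range n, (4 * (‖ps X a (k + 1) ω‖ ^ 2 - ‖ps X a k ω‖ ^ 2) -
        4 * (rm X a k ω * (‖ps X a (k + 1) ω‖ - ‖ps X a k ω‖)))) ∂P := by
        refine integral_mono (i3 n) ?_ fun ω => ?_
        · exact integrable_finsetSum _ fun k _ =>
            (((i1 (k + 1)).sub (i1 k)).const_mul 4).sub ((i2 k).const_mul 4)
        · beta_reduce
          rw [← hsum ω]
          exact path_sq (fun k => ‖ps X a k ω‖) n
    _ = ∑ k ∈ Finset.range n, ∫ ω, (4 * (‖ps X a (k + 1) ω‖ ^ 2 - ‖ps X a k ω‖ ^ 2) -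
        4 * (rm X a k ω * (‖ps X a (k + 1) ω‖ - ‖ps X a k ω‖))) ∂P :=
        integral_finsetSum _ fun k _ =>
            (((i1 (k + 1)).sub (i1 k)).const_mul 4).sub ((i2 k).const_mul 4)
    _ ≤ ∑ k ∈ Finset.range n, 4 * ‖a k‖ ^ 2 :=
        Finset.sum_le_sum fun k _ => step P X hXm hX hi h0 a k
    _ = _ := by rw [Finset.mul_sum]

/-- Doob's maximal inequality -/
theorem doob (P : Measure Ω) [IsProbabilityMeasure P] (X : ℕ → Ω → ℂ)
    (hXm : ∀ k, Measurable (X k)) (hX : ∀ k ω, ‖X k ω‖ ≤ 1) (hi : iIndepFun X P)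
    (h0 : ∀ k, ∫ ω, X k ω ∂P = 0) (a : ℕ → ℂ) :
    ∫⁻ ω, (⨆ n, ‖ps X a n ω‖ₑ ^ 2) ∂P ≤ 4 * ∑' k, ‖a k‖ₑ ^ 2 := by
  have hrmm : ∀ n, Measurable (rm X a n) := fun n => rm_meas' _ X a n fun k _ => hXm k
  have h1 : ∀ ω, (⨆ n, ‖ps X a n ω‖ₑ ^ 2) ≤ ⨆ n, ENNReal.ofReal (rm X a n ω ^ 2) := by
    intro ω
    refine iSup_mono fun n => ?_
    rw [← ofReal_norm, ← ENNReal.ofReal_pow (norm_nonneg _)]
    exact ENNReal.ofReal_le_ofReal (pow_le_pow_left₀ (norm_nonneg _)
      (le_run (fun k => ‖ps X a k ω‖) n) 2)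
  refine (lintegral_mono h1).trans ?_
  rw [lintegral_iSup (fun n => ((hrmm n).pow_const 2).ennreal_ofReal)]
  · refine iSup_le fun n => ?_
    have hint : Integrable (fun ω => rm X a n ω ^ 2) P := by
      refine (integrable_const ((∑ k ∈ Finset.range n, ‖a k‖) ^ 2)).mono'
        ((hrmm n).pow_const 2).aestronglyMeasurable (Eventually.of_forall fun ω => ?_)
      rw [Real.norm_of_nonneg (by positivity)]
      exact pow_le_pow_left₀ (rm_nonneg _ _ _ _) (rm_le X hX a n ω) 2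
    rw [← ofReal_integral_eq_lintegral_ofReal hint (Eventually.of_forall fun ω => by positivity)]
    calc ENNReal.ofReal (∫ ω, rm X a n ω ^ 2 ∂P)
        ≤ ENNReal.ofReal (4 * ∑ k ∈ Finset.range n, ‖a k‖ ^ 2) :=
          ENNReal.ofReal_le_ofReal (doob_real P X hXm hX hi h0 a n)
      _ = 4 * ∑ k ∈ Finset.range n, ‖a k‖ₑ ^ 2 := by
          rw [ENNReal.ofReal_mul (by norm_num), ENNReal.ofReal_sum_of_nonneg
            (fun _ _ => by positivity)]
          congr 1
          · simp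
          · refine Finset.sum_congr rfl fun k _ => ?_
            rw [ENNReal.ofReal_pow (norm_nonneg _), ofReal_norm]
      _ ≤ _ := by
          gcongr
          exact ENNReal.sum_le_tsum _
  · intro m n hmn ω
    refine ENNReal.ofReal_le_ofReal (pow_le_pow_left₀ (rm_nonneg _ _ _ _) ?_ 2)
    exact run_mono _ hmn

end Q87.RA
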