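import Pool.Agent.Q87.RA.Chain
import Pool.Agent.Q87.RA.Doob

/-! Independent centred multipliers on annuli: the maximal inequality with a Gaussian weight, and
almost sure convergence. -/

set_option autoImplicit false

namespace Q87.RA

open MeasureTheory ProbabilityTheory Filter Set Topology Metric
open scoped ENNReal NNReal RealInnerProductSpace
open Pool.Agent.Q261.ST (wt ph)

variable {V : Type*} [NormedAddCommGroup V] [InnerProductSpace ℝ V] [FiniteDimensional ℝ V]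
  [MeasurableSpace V] [BorelSpace V]

/-- admissible radii -/
structure Radii (r : ℕ → ℝ) (L : ℝ) : Prop where
  zero : r 0 = 0
  mono : Monotone r
  top : Tendsto r atTop atTop
  gap : ∀ k, r (k + 1) - r k ≤ L

lemma Radii.nonneg {r : ℕ → ℝ} {L : ℝ} (h : Radii r L) (k : ℕ) : 0 ≤ r k := by
  rw [← h.zero]
  exact h.mono (Nat.zero_le k)

lemma Radii.exists_idx {r : ℕ → ℝ} {L : ℝ} (h : Radii r L) {t : ℝ} (ht : 0 ≤ t) :
    ∃ k, r k ≤ t ∧ t < r (k + 1) := by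
  classical
  have hex : ∃ k, t < r (k + 1) := by
    obtain ⟨K, hK⟩ := (h.top.eventually_gt_atTop t).exists
    exact ⟨K, hK.trans_le (h.mono (Nat.le_succ K))⟩
  refine ⟨Nat.find hex, ?_, Nat.find_spec hex⟩
  rcases Nat.eq_zero_or_pos (Nat.find hex) with h0 | h0
  · rw [h0, h.zero]
    exact ht
  · have h1 := Nat.find_min hex (m := Nat.find hex - 1) (by omega)
    rw [not_lt, Nat.sub_add_cancel h0] at h1
    exact h1

/-- the modulated function -/
noncomputable def rnd (r : ℕ → ℝ) (c : ℕ → ℂ) (g : V → ℂ) (ξ : V) : ℂ :=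
  ∑' k, (An V (r k) (r (k + 1))).indicator (fun ξ => c k * g ξ) ξ

lemma An_unique {r : ℕ → ℝ} {L : ℝ} (h : Radii r L) {ξ : V} {k j : ℕ}
    (hk : ξ ∈ An V (r k) (r (k + 1))) (hj : ξ ∈ An V (r j) (r (j + 1))) : j = k := by
  by_contra hne
  rcases lt_or_gt_of_ne hne with hlt | hlt
  · have h3 := h.mono (show j + 1 ≤ k from hlt)
    linarith [hk.1, hj.2]
  · have h3 := h.mono (show k + 1 ≤ j from hlt)
    linarith [hj.1, hk.2]

lemma rnd_eq {r : ℕ → ℝ} {L : ℝ} (h : Radii r L) (c : ℕ → ℂ) (g : V → ℂ) {ξ : V} {k : ℕ}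
    (hk : ξ ∈ An V (r k) (r (k + 1))) : rnd r c g ξ = c k * g ξ := by
  unfold rnd
  rw [tsum_eq_single k, indicator_of_mem hk]
  intro j hj
  apply indicator_of_notMem
  intro hcon
  exact hj (An_unique h hk hcon)

lemma rnd_norm_le {r : ℕ → ℝ} {L : ℝ} (h : Radii r L) (c : ℕ → ℂ) (hc : ∀ k, ‖c k‖ ≤ 1)
    (g : V → ℂ) (ξ : V) : ‖rnd r c g ξ‖ ≤ ‖g ξ‖ := by
  obtain ⟨k, h1, h2⟩ := h.exists_idx (norm_nonneg ξ)
  rw [rnd_eq h c g ⟨h1, h2⟩, norm_mul]
  nlinarith [hc k, norm_nonneg (g ξ)]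

lemma rnd_aesm {r : ℕ → ℝ} {L : ℝ} (h : Radii r L) (c : ℕ → ℂ) {g : V → ℂ} {μ : Measure V}
    (hg : AEStronglyMeasurable g μ) : AEStronglyMeasurable (rnd r c g) μ := by
  have h1 : ∀ n : ℕ, AEStronglyMeasurable (fun ξ => ∑ k ∈ Finset.range n,
      (An V (r k) (r (k + 1))).indicator (fun ξ => c k * g ξ) ξ) μ := by
    intro n
    apply Finset.aestronglyMeasurable_fun_sum
    intro k _
    exact (hg.const_mul (c k)).indicator (An_meas _ _)
  refine aestronglyMeasurable_of_tendsto_ae atTop h1 (Eventually.of_forall fun ξ => ?_)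
  obtain ⟨k, hk1, hk2⟩ := h.exists_idx (norm_nonneg ξ)
  apply tendsto_const_nhds.congr'
  filter_upwards [eventually_gt_atTop k] with n hn
  rw [rnd_eq h c g ⟨hk1, hk2⟩, Finset.sum_eq_single k]
  · rw [indicator_of_mem (show ξ ∈ An V (r k) (r (k + 1)) from ⟨hk1, hk2⟩)]
  · intro j _ hj
    apply indicator_of_notMem
    intro hcon
    exact hj (An_unique h ⟨hk1, hk2⟩ hcon)
  · intro hcon
    exact absurd (Finset.mem_range.2 hn) hcon

lemma rnd_memLp {r : ℕ → ℝ} {L : ℝ} (h : Radii r L) (c : ℕ → ℂ) (hc : ∀ k, ‖c k‖ ≤ 1)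
    {g : V → ℂ} (hg : MemLp g 2 volume) : MemLp (rnd r c g) 2 volume :=
  hg.of_le (rnd_aesm h c hg.aestronglyMeasurable) (Eventually.of_forall (rnd_norm_le h c hc g))

lemma pc_rnd {r : ℕ → ℝ} {L : ℝ} (h : Radii r L) (c : ℕ → ℂ) (g : V → ℂ) (k : ℕ) {R : ℝ}
    (hR : R ≤ r (k + 1)) (x : V) : pc (rnd r c g) (r k) R x = c k * pc g (r k) R x := by
  unfold pc
  rw [← integral_const_mul]
  refine setIntegral_congr_fun (An_meas _ _) fun ξ hξ => ?_
  have h1 := rnd_eq h c g (ξ := ξ) (k := k) ⟨hξ.1, hξ.2.trans_le hR⟩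
  beta_reduce
  rw [h1]
  ring

/-- the pieces -/
noncomputable def an (r : ℕ → ℝ) (g : V → ℂ) (x : V) (k : ℕ) : ℂ := pc g (r k) (r (k + 1)) x

lemma pc_rnd_zero {r : ℕ → ℝ} {L : ℝ} (h : Radii r L) (c : ℕ → ℂ) (hc : ∀ k, ‖c k‖ ≤ 1)
    {g : V → ℂ} (hg : MemLp g 2 volume) (K : ℕ) (x : V) :
    pc (rnd r c g) 0 (r K) x = ∑ k ∈ Finset.range K, c k * an r g x k := by
  induction K with
  | zero =>
    rw [h.zero, pc_self _ _ le_rfl]
    simp
  | succ K ih =>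
    rw [pc_add (rnd_memLp h c hc hg) x (h.nonneg K) (h.mono (Nat.le_succ K)), ih,
      Finset.sum_range_succ, pc_rnd h c g K le_rfl x]
    rfl

/-- the maximal function of the random series -/
noncomputable def mx {Ω : Type*} (X : ℕ → Ω → ℂ) (a : ℕ → ℂ) (ω : Ω) : ℝ≥0∞ :=
  ⨆ n, ‖ps X a n ω‖ₑ ^ 2

/-- the decomposition of a partial integral -/
lemma decomp {Ω : Type*} (X : ℕ → Ω → ℂ) (hX : ∀ k ω, ‖X k ω‖ ≤ 1) {r : ℕ → ℝ} {L : ℝ}
    (h : Radii r L) {g : V → ℂ} (hg : MemLp g 2 volume) (ω : Ω) (x : V) {R : ℝ} {K : ℕ}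
    (h1 : r K ≤ R) (h2 : R ≤ r (K + 1)) :
    pc (rnd r (fun k => X k ω) g) 0 R x =
      ps X (an r g x) K ω + X K ω * pc g (r K) R x := by
  have hc : ∀ k, ‖X k ω‖ ≤ 1 := fun k => hX k ω
  rw [pc_add (rnd_memLp h _ hc hg) x (h.nonneg K) h1, pc_rnd_zero h _ hc hg,
    pc_rnd h _ g K h2 x]
  rfl

lemma sq_add_le (a b : ℝ≥0∞) : (a + b) ^ 2 ≤ 2 * a ^ 2 + 2 * b ^ 2 := by
  have h := Pool.Agent.Q261.ST.two_mul_le a b
  calc (a + b) ^ 2 = a ^ 2 + 2 * (a * b) + b ^ 2 := by ring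
    _ ≤ a ^ 2 + (a ^ 2 + b ^ 2) + b ^ 2 := by gcongr
    _ = _ := by ring

/-- the pointwise majorant -/
theorem pointwise {Ω : Type*} (X : ℕ → Ω → ℂ) (hX : ∀ k ω, ‖X k ω‖ ≤ 1) {r : ℕ → ℝ} {L : ℝ}
    (h : Radii r L) {g : V → ℂ} (hg : MemLp g 2 volume) (ω : Ω) (x : V) (R : ℝ) :
    ‖pc (rnd r (fun k => X k ω) g) 0 R x‖ₑ ^ 2 ≤
      2 * mx X (an r g x) ω + 2 * ∑' k, M g (r k) (r (k + 1)) x ^ 2 := by
  rcases lt_or_ge R 0 with hR | hR
  · rw [pc_self _ _ hR.le]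
    simp
  · obtain ⟨K, h1, h2⟩ := h.exists_idx hR
    rw [decomp X hX h hg ω x h1 h2.le]
    calc _ ≤ (‖ps X (an r g x) K ω‖ₑ + ‖X K ω * pc g (r K) R x‖ₑ) ^ 2 := by
          gcongr
          exact enorm_add_le _ _
      _ ≤ 2 * ‖ps X (an r g x) K ω‖ₑ ^ 2 + 2 * ‖X K ω * pc g (r K) R x‖ₑ ^ 2 := sq_add_le _ _
      _ ≤ _ := by
          gcongr
          · exact le_iSup (fun n => ‖ps X (an r g x) n ω‖ₑ ^ 2) K
          · calc ‖X K ω * pc g (r K) R x‖ₑ ^ 2 ≤ M g (r K) (r (K + 1)) x ^ 2 := by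
                  gcongr
                  rw [enorm_mul]
                  calc ‖X K ω‖ₑ * ‖pc g (r K) R x‖ₑ ≤ 1 * M g (r K) (r (K + 1)) x := by
                        gcongr
                        · rw [← ofReal_norm, ← ENNReal.ofReal_one]
                          exact ENNReal.ofReal_le_ofReal (hX K ω)
                        · exact chain hg h1 h2.le x
                    _ = _ := one_mul _
              _ ≤ _ := ENNReal.le_tsum (f := fun k => M g (r k) (r (k + 1)) x ^ 2) K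

lemma En_sum {r : ℕ → ℝ} {L : ℝ} (h : Radii r L) (g : V → ℂ) :
    ∑' k, En g (r k) (r (k + 1)) ≤ ∫⁻ ξ, ‖g ξ‖ₑ ^ 2 := by
  unfold En
  rw [← lintegral_iUnion (fun k => An_meas _ _)]
  · exact setLIntegral_le_lintegral _ _
  · intro k j hkj
    rw [Function.onFun, disjoint_left]
    intro ξ h1 h2
    exact hkj (An_unique h h2 h1)

/-- the square sum of the majorants -/
theorem M_sum [Nontrivial V] {r : ℕ → ℝ} (m : ℕ) (h : Radii r (2 ^ m)) {g : V → ℂ}
    (hg : MemLp g 2 volume) :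
    ∫⁻ x : V, (∑' k, M g (r k) (r (k + 1)) x ^ 2) * ENNReal.ofReal (wt x) ≤
      ENNReal.ofReal (C1 V * (m + 4) ^ 2) * ∫⁻ ξ, ‖g ξ‖ₑ ^ 2 := by
  have hwm : Measurable fun x : V => ENNReal.ofReal (wt x) :=
    Pool.Agent.Q261.ST.continuous_wt.measurable.ennreal_ofReal
  simp_rw [← ENNReal.tsum_mul_right]
  have hm1 : ∀ k, Measurable fun x : V => M g (r k) (r (k + 1)) x ^ 2 * ENNReal.ofReal (wt x) :=
    fun k => ((M_meas hg _ _).pow_const 2).mul hwm
  rw [lintegral_tsum fun k => (hm1 k).aemeasurable]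
  calc ∑' k, ∫⁻ x : V, M g (r k) (r (k + 1)) x ^ 2 * ENNReal.ofReal (wt x)
      ≤ ∑' k, ENNReal.ofReal (C1 V * (m + 4) ^ 2) * En g (r k) (r (k + 1)) :=
        ENNReal.tsum_le_tsum fun k => M_bound hg (h.nonneg k) (h.mono (Nat.le_succ k)) m (h.gap k)
    _ = ENNReal.ofReal (C1 V * (m + 4) ^ 2) * ∑' k, En g (r k) (r (k + 1)) := ENNReal.tsum_mul_left
    _ ≤ _ := mul_le_mul' le_rfl (En_sum h g)

/-- the square sum of the pieces -/
theorem an_sum [Nontrivial V] {r : ℕ → ℝ} {L : ℝ} (h : Radii r L) {g : V → ℂ}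
    (hg : MemLp g 2 volume) :
    ∫⁻ x : V, (∑' k, ‖an r g x k‖ₑ ^ 2) * ENNReal.ofReal (wt x) ≤
      ENNReal.ofReal (C1 V) * ∫⁻ ξ, ‖g ξ‖ₑ ^ 2 := by
  have hwm : Measurable fun x : V => ENNReal.ofReal (wt x) :=
    Pool.Agent.Q261.ST.continuous_wt.measurable.ennreal_ofReal
  simp_rw [← ENNReal.tsum_mul_right]
  have hm1 : ∀ k, Measurable fun x : V => ‖an r g x k‖ₑ ^ 2 * ENNReal.ofReal (wt x) :=
    fun k => (((pc_cont hg _ _).measurable.enorm).pow_const 2).mul hwm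
  rw [lintegral_tsum fun k => (hm1 k).aemeasurable]
  calc ∑' k, ∫⁻ x : V, ‖an r g x k‖ₑ ^ 2 * ENNReal.ofReal (wt x)
      ≤ ∑' k, ENNReal.ofReal (C1 V) * En g (r k) (r (k + 1)) := by
        refine ENNReal.tsum_le_tsum fun k => ?_
        refine (piece hg (r k) (r (k + 1)) (h.nonneg k) (h.mono (Nat.le_succ k))).trans ?_
        refine mul_le_mul' (ENNReal.ofReal_le_ofReal ?_) le_rfl
        have := C1_nonneg (V := V)
        nlinarith [min_le_left (1 : ℝ) (r (k + 1) - r k)]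
    _ = ENNReal.ofReal (C1 V) * ∑' k, En g (r k) (r (k + 1)) := ENNReal.tsum_mul_left
    _ ≤ _ := mul_le_mul' le_rfl (En_sum h g)

variable {Ω : Type*} [MeasurableSpace Ω]

lemma ps_meas2 (X : ℕ → Ω → ℂ) (hXm : ∀ k, Measurable (X k)) (a : V → ℕ → ℂ)
    (ha : ∀ k, Measurable fun x => a x k) (n : ℕ) :
    Measurable fun p : Ω × V => ps X (a p.2) n p.1 := by
  unfold ps
  refine Finset.measurable_sum _ fun k _ => ?_
  exact ((hXm k).comp measurable_fst).mul ((ha k).comp measurable_snd)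

lemma mx_meas (X : ℕ → Ω → ℂ) (hXm : ∀ k, Measurable (X k)) (a : V → ℕ → ℂ)
    (ha : ∀ k, Measurable fun x => a x k) : Measurable fun p : Ω × V => mx X (a p.2) p.1 := by
  unfold mx
  exact Measurable.iSup fun n => ((ps_meas2 X hXm a ha n).enorm).pow_const 2

/-- the independent centred multipliers -/
structure Noise (P : Measure Ω) (X : ℕ → Ω → ℂ) : Prop where
  meas : ∀ k, Measurable (X k)
  le : ∀ k ω, ‖X k ω‖ ≤ 1
  ind : iIndepFun X P
  mean : ∀ k, ∫ ω, X k ω ∂P = 0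

/-- the maximal inequality with the Gaussian weight -/
theorem weighted [Nontrivial V] (P : Measure Ω) [IsProbabilityMeasure P] (X : ℕ → Ω → ℂ)
    (hX : Noise P X) {r : ℕ → ℝ} (m : ℕ) (h : Radii r (2 ^ m)) {g : V → ℂ}
    (hg : MemLp g 2 volume) :
    ∫⁻ ω, (∫⁻ x : V, (⨆ R : ℝ, ‖pc (rnd r (fun k => X k ω) g) 0 R x‖ₑ) ^ 2 *
      ENNReal.ofReal (wt x)) ∂P ≤
      ENNReal.ofReal (10 * C1 V * (m + 4) ^ 2) * ∫⁻ ξ, ‖g ξ‖ₑ ^ 2 := by
  have hwm : Measurable fun x : V => ENNReal.ofReal (wt x) :=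
    Pool.Agent.Q261.ST.continuous_wt.measurable.ennreal_ofReal
  have ham : ∀ k, Measurable fun x : V => an r g x k := fun k => (pc_cont hg _ _).measurable
  have hmm : Measurable fun p : Ω × V => mx X (an r g p.2) p.1 := mx_meas X hX.meas _ ham
  have hMm : Measurable fun x : V => ∑' k, M g (r k) (r (k + 1)) x ^ 2 :=
    Measurable.tsum fun k => (M_meas hg _ _).pow_const 2
  have h1 : ∀ ω (x : V), (⨆ R : ℝ, ‖pc (rnd r (fun k => X k ω) g) 0 R x‖ₑ) ^ 2 ≤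
      2 * mx X (an r g x) ω + 2 * ∑' k, M g (r k) (r (k + 1)) x ^ 2 := by
    intro ω x
    have h2 : (⨆ R : ℝ, ‖pc (rnd r (fun k => X k ω) g) 0 R x‖ₑ) ≤
        (2 * mx X (an r g x) ω + 2 * ∑' k, M g (r k) (r (k + 1)) x ^ 2) ^ (1 / 2 : ℝ) := by
      refine iSup_le fun R => ?_
      have h3 := pointwise X hX.le h hg ω x R
      calc ‖pc (rnd r (fun k => X k ω) g) 0 R x‖ₑ
          = (‖pc (rnd r (fun k => X k ω) g) 0 R x‖ₑ ^ 2) ^ (1 / 2 : ℝ) := by
            rw [← ENNReal.rpow_natCast, ← ENNReal.rpow_mul]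
            norm_num
        _ ≤ _ := ENNReal.rpow_le_rpow h3 (by norm_num)
    calc _ ≤ ((2 * mx X (an r g x) ω + 2 * ∑' k, M g (r k) (r (k + 1)) x ^ 2) ^ (1 / 2 : ℝ)) ^ 2 := by
          gcongr
      _ = _ := by
          rw [← ENNReal.rpow_natCast, ← ENNReal.rpow_mul]
          norm_num
  calc ∫⁻ ω, (∫⁻ x : V, (⨆ R : ℝ, ‖pc (rnd r (fun k => X k ω) g) 0 R x‖ₑ) ^ 2 *
        ENNReal.ofReal (wt x)) ∂P
      ≤ ∫⁻ ω, (∫⁻ x : V, (2 * mx X (an r g x) ω * ENNReal.ofReal (wt x) +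
        2 * (∑' k, M g (r k) (r (k + 1)) x ^ 2) * ENNReal.ofReal (wt x))) ∂P := by
        refine lintegral_mono fun ω => lintegral_mono fun x => ?_
        rw [← add_mul]
        exact mul_le_mul' (h1 ω x) le_rfl
    _ = 2 * ∫⁻ ω, (∫⁻ x : V, mx X (an r g x) ω * ENNReal.ofReal (wt x)) ∂P +
        2 * ∫⁻ x : V, (∑' k, M g (r k) (r (k + 1)) x ^ 2) * ENNReal.ofReal (wt x) := by
        have e1 : ∀ ω, (∫⁻ x : V, (2 * mx X (an r g x) ω * ENNReal.ofReal (wt x) +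
            2 * (∑' k, M g (r k) (r (k + 1)) x ^ 2) * ENNReal.ofReal (wt x))) =
            2 * (∫⁻ x : V, mx X (an r g x) ω * ENNReal.ofReal (wt x)) +
            2 * ∫⁻ x : V, (∑' k, M g (r k) (r (k + 1)) x ^ 2) * ENNReal.ofReal (wt x) := by
          intro ω
          have hm2 : Measurable fun x : V => 2 * (∑' k, M g (r k) (r (k + 1)) x ^ 2) *
              ENNReal.ofReal (wt x) := (hMm.const_mul 2).mul hwm
          rw [lintegral_add_right _ hm2,
            ← lintegral_const_mul' _ _ ENNReal.ofNat_ne_top,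
            ← lintegral_const_mul' _ _ ENNReal.ofNat_ne_top]
          congr 1 <;> (refine lintegral_congr fun x => ?_) <;> ring
        simp_rw [e1]
        rw [lintegral_add_right _ measurable_const, lintegral_const_mul' _ _ ENNReal.ofNat_ne_top,
          lintegral_const]
        simp
    _ ≤ 2 * (4 * (ENNReal.ofReal (C1 V) * ∫⁻ ξ, ‖g ξ‖ₑ ^ 2)) +
        2 * (ENNReal.ofReal (C1 V * (m + 4) ^ 2) * ∫⁻ ξ, ‖g ξ‖ₑ ^ 2) := by
        gcongr
        · rw [lintegral_lintegral_swap (hmm.mul (hwm.comp measurable_snd)).aemeasurable]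
          calc ∫⁻ x : V, ∫⁻ ω, mx X (an r g x) ω * ENNReal.ofReal (wt x) ∂P
              = ∫⁻ x : V, (∫⁻ ω, mx X (an r g x) ω ∂P) * ENNReal.ofReal (wt x) := by
                refine lintegral_congr fun x => ?_
                rw [lintegral_mul_const' _ _ ENNReal.ofReal_ne_top]
            _ ≤ ∫⁻ x : V, (4 * ∑' k, ‖an r g x k‖ₑ ^ 2) * ENNReal.ofReal (wt x) := by
                refine lintegral_mono fun x => mul_le_mul' ?_ le_rfl
                exact doob P X hX.meas hX.le hX.ind hX.mean (an r g x)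
            _ = 4 * ∫⁻ x : V, (∑' k, ‖an r g x k‖ₑ ^ 2) * ENNReal.ofReal (wt x) := by
                rw [← lintegral_const_mul' _ _ ENNReal.ofNat_ne_top]
                refine lintegral_congr fun x => ?_
                ring
            _ ≤ _ := mul_le_mul' le_rfl (an_sum h hg)
        · exact M_sum m h hg
    _ ≤ ENNReal.ofReal (10 * C1 V * (m + 4) ^ 2) * ∫⁻ ξ, ‖g ξ‖ₑ ^ 2 := by
        have hC := C1_nonneg (V := V)
        have e2 : ENNReal.ofReal (10 * C1 V * (m + 4) ^ 2) =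
            8 * ENNReal.ofReal (C1 V * (m + 4) ^ 2) + 2 * ENNReal.ofReal (C1 V * (m + 4) ^ 2) := by
          rw [← add_mul, show (8 : ℝ≥0∞) + 2 = ENNReal.ofReal 10 by norm_num,
            ← ENNReal.ofReal_mul (by norm_num)]
          congr 1
          ring
        rw [e2, add_mul]
        refine add_le_add ?_ (le_of_eq (by ring))
        have e3 : ENNReal.ofReal (C1 V) ≤ ENNReal.ofReal (C1 V * (m + 4) ^ 2) := by
          apply ENNReal.ofReal_le_ofReal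
          have : (1 : ℝ) ≤ (m + 4) ^ 2 := by
            have : (0 : ℝ) ≤ m := Nat.cast_nonneg m
            nlinarith
          nlinarith
        calc 2 * (4 * (ENNReal.ofReal (C1 V) * ∫⁻ ξ, ‖g ξ‖ₑ ^ 2)) =
              8 * ENNReal.ofReal (C1 V) * ∫⁻ ξ, ‖g ξ‖ₑ ^ 2 := by ring
          _ ≤ _ := by gcongr

end Q87.RA
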